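import Mathlib
import Pool.Agent.H.MP_aca27d_an.A

set_option autoImplicit false

namespace Pool.Agent.H.MP_5801e7_an

open Set Cardinal Pool.Agent.H.MP_aca27d_an
open scoped ENNReal

theorem recur2 {K C X : Type} [DecidableEq K] [Zero X] [Nonempty C] [Nonempty K]
    (B : C → Set K) (hB : ∀ c, continuum ≤ #(B c)) (hC : #C ≤ continuum)
    (Adm : K → X → Prop) (h0 : ∀ p, Adm p 0) (Good : C → K → X → K → X → Prop)
    (step : ∀ c, ∀ p ∈ B c, ∀ (y : K → X), (∀ q, Adm q (y q)) →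
      ∃ x q, Adm p x ∧ Good c p x q (Function.update y p x q)) :
    ∃ x : K → X, (∀ p, Adm p (x p)) ∧
      ∀ c, ¬ {p | ∃ q, Good c p (x p) q (x q)}.Countable := by
  classical
  let I := (continuum.{0}).ord.ToType
  have hI : #(C × ℝ) ≤ #I := by
    rw [mk_ord_toType, mk_prod, lift_id, lift_id, mk_real]
    calc #C * continuum ≤ continuum * continuum := by gcongr
      _ = continuum := continuum_mul_self
  obtain ⟨ι⟩ := (Cardinal.le_def _ _).1 hI
  let e : I → C × ℝ := Function.invFun ι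
  have he : ∀ z, e (ι z) = z := Function.leftInverse_invFun ι.injective
  let P : (t : I) → (I → K × X × K) → K × X × K → Prop := fun t f a =>
    (∀ u, u < t → a.1 ≠ (f u).1 ∧ a.1 ≠ (f u).2.2) ∧ Adm a.1 a.2.1 ∧
      ∃ z, Good (e t).1 a.1 a.2.1 a.2.2 z ∧ (a.2.2 = a.1 → z = a.2.1) ∧
        (∀ u, u < t → (f u).1 = a.2.2 → z = (f u).2.1) ∧
        (a.2.2 ≠ a.1 → (∀ u, u < t → (f u).1 ≠ a.2.2) → z = 0)
  have hloc : ∀ t f g a, (∀ u, u < t → f u = g u) → P t f a → P t g a := by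
    rintro t f g a h ⟨h1, h2, z, h3, h4, h5, h6⟩
    refine ⟨fun u hu => h u hu ▸ h1 u hu, h2, z, h3, h4, fun u hu => h u hu ▸ h5 u hu,
      fun ha hb => h6 ha fun u hu => ?_⟩
    rw [h u hu]; exact hb u hu
  have hstep : ∀ t f, (∀ u, u < t → P u f (f u)) → ∃ a, P t f a := by
    intro t f ih
    have hlt : #(↥((fun u => (f u).1) '' Iio t ∪ (fun u => (f u).2.2) '' Iio t)) <
        #(B (e t).1) := by
      refine lt_of_lt_of_le ?_ (hB _)
      refine (mk_union_le _ _).trans_lt (add_lt_of_lt aleph0_le_continuum ?_ ?_) <;>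
        exact mk_image_le.trans_lt (mk_Iio_toType_ord_lt t)
    obtain ⟨p, hpB, hp⟩ : ∃ p ∈ B (e t).1,
        p ∉ (fun u => (f u).1) '' Iio t ∪ (fun u => (f u).2.2) '' Iio t := by
      by_contra h
      push Not at h
      exact absurd (mk_le_mk_of_subset h) (not_le.2 hlt)
    have hinj : ∀ u v, u < t → v < t → (f u).1 = (f v).1 → u = v := by
      intro u v hu hv h
      rcases lt_trichotomy u v with h' | h' | h'
      · exact absurd h.symm ((ih v hv).1 u h').1
      · exact h'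
      · exact absurd h ((ih u hu).1 v h').1
    let y : K → X := fun q => if h : ∃ u, u < t ∧ (f u).1 = q then (f h.choose).2.1 else 0
    have hy : ∀ u, u < t → y (f u).1 = (f u).2.1 := by
      intro u hu
      have h : ∃ v, v < t ∧ (f v).1 = (f u).1 := ⟨u, hu, rfl⟩
      simp only [y, dif_pos h]
      rw [hinj _ _ h.choose_spec.1 hu h.choose_spec.2]
    have hy0 : ∀ q, (∀ u, u < t → (f u).1 ≠ q) → y q = 0 := by
      intro q hq
      have h : ¬ ∃ v, v < t ∧ (f v).1 = q := fun ⟨v, h1, h2⟩ => hq v h1 h2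
      simp only [y, dif_neg h]
    have hya : ∀ q, Adm q (y q) := by
      intro q
      by_cases h : ∃ u, u < t ∧ (f u).1 = q
      · obtain ⟨u, hu, rfl⟩ := h
        rw [hy u hu]; exact (ih u hu).2.1
      · rw [hy0 q fun u hu hq => h ⟨u, hu, hq⟩]; exact h0 q
    obtain ⟨x, q, hx, hg⟩ := step (e t).1 p hpB y hya
    have hp1 : ∀ u, u < t → p ≠ (f u).1 := fun u hu h => hp (Or.inl ⟨u, hu, h.symm⟩)
    refine ⟨(p, x, q), fun u hu => ⟨hp1 u hu, fun h => hp (Or.inr ⟨u, hu, h.symm⟩)⟩, hx, _, hg,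
      ?_, ?_, ?_⟩
    · intro h
      dsimp only at h ⊢
      rw [h, Function.update_self]
    · intro u hu h
      dsimp only at h ⊢
      rw [← h, Function.update_of_ne (hp1 u hu).symm, hy u hu]
    · intro h1 h2
      dsimp only at h1 h2 ⊢
      rw [Function.update_of_ne h1, hy0 q h2]
  obtain ⟨f, hf⟩ := wf_choice P hloc hstep
  have hinj : ∀ u v, (f u).1 = (f v).1 → u = v := by
    intro u v h
    rcases lt_trichotomy u v with h' | h' | h'
    · exact absurd h.symm ((hf v).1 u h').1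
    · exact h'
    · exact absurd h ((hf u).1 v h').1
  let y : K → X := fun q => if h : ∃ u, (f u).1 = q then (f h.choose).2.1 else 0
  have hy : ∀ u, y (f u).1 = (f u).2.1 := by
    intro u
    have h : ∃ v, (f v).1 = (f u).1 := ⟨u, rfl⟩
    simp only [y, dif_pos h]
    rw [hinj _ _ h.choose_spec]
  have hy0 : ∀ q, (∀ u, (f u).1 ≠ q) → y q = 0 := by
    intro q hq
    have h : ¬ ∃ v, (f v).1 = q := fun ⟨v, h2⟩ => hq v h2
    simp only [y, dif_neg h]
  refine ⟨y, fun q => ?_, fun c hc => ?_⟩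
  · by_cases h : ∃ u, (f u).1 = q
    · obtain ⟨u, rfl⟩ := h
      rw [hy u]; exact (hf u).2.1
    · rw [hy0 q fun u hq => h ⟨u, hq⟩]; exact h0 q
  · have hsub : range (fun r : ℝ => (f (ι (c, r))).1) ⊆ {p | ∃ q, Good c p (y p) q (y q)} := by
      rintro _ ⟨r, rfl⟩
      obtain ⟨-, -, z, h3, h4, h5, h6⟩ := hf (ι (c, r))
      refine ⟨(f (ι (c, r))).2.2, ?_⟩
      have hz : y (f (ι (c, r))).2.2 = z := by
        by_cases h : ∃ u, (f u).1 = (f (ι (c, r))).2.2
        · obtain ⟨u, hu⟩ := h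
          rcases lt_trichotomy u (ι (c, r)) with h' | h' | h'
          · rw [h5 u h' hu, ← hu, hy]
          · subst h'
            rw [h4 hu.symm, ← hu, hy]
          · exact absurd hu ((hf u).1 _ h').2
        · rw [hy0 _ fun u hu => h ⟨u, hu⟩, h6 (fun h' => h ⟨_, h'.symm⟩) fun u _ hu => h ⟨u, hu⟩]
      rw [he] at h3
      beta_reduce
      rw [hy, hz]; exact h3
    have hc2 := hc.mono hsub
    have hi : Function.Injective (fun r : ℝ => (f (ι (c, r))).1) := by
      intro r s h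
      have := ι.injective (hinj _ _ h)
      exact (Prod.ext_iff.1 this).2
    rw [← image_univ] at hc2
    exact not_countable_real ((countable_of_injective_of_countable_image hi.injOn hc2))

theorem ros2 (S : ℕ → Finset ℕ) (hS : ∀ i j, i ≠ j → Disjoint (S i) (S j))
    (h : ℕ → ℕ → ℝ≥0∞) {M : ℝ} (hM : ∀ k, ∑' n, h k n ≤ ENNReal.ofReal M) {ε : ℝ} (hε : 0 < ε) :
    ∃ s : ℕ → ℕ, Function.Injective s ∧
      ∀ k, ∑' n, {n | ∃ j, j ≠ k ∧ n ∈ S (s j)}.indicator (h (s k)) n ≤ ENNReal.ofReal ε := by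
  classical
  obtain ⟨N, hN⟩ := exists_nat_ge (M / ε)
  let a : ℕ → ℕ → ℝ≥0∞ := fun k j => if j = k then 0 else ∑ n ∈ S j, h k n
  have hrow : ∀ k, ∑' j, a k j ≤ N * ENNReal.ofReal ε := by
    intro k
    calc ∑' j, a k j ≤ ∑' j, ∑ n ∈ S j, h k n := ENNReal.tsum_le_tsum fun j => by
          simp only [a]
          split_ifs <;> simp
      _ ≤ ∑' n, h k n := by
          refine ENNReal.summable.tsum_le_of_sum_le fun u => ?_
          rw [← Finset.sum_biUnion fun i _ j _ hij => hS i j hij]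
          exact ENNReal.sum_le_tsum _
      _ ≤ ENNReal.ofReal M := hM k
      _ ≤ ENNReal.ofReal (N * ε) := ENNReal.ofReal_le_ofReal ((div_le_iff₀ hε).1 hN)
      _ = _ := by rw [ENNReal.ofReal_mul (Nat.cast_nonneg N)]; simp
  obtain ⟨s, hs, hr⟩ := rosenthal (ENNReal.ofReal ε) N a (fun k => if_pos rfl) hrow
    ENNReal.ofReal_ne_top
  refine ⟨s, hs, fun k => le_trans ?_ (hr k)⟩
  have h1 : ∀ j, a (s k) (s j) = ∑' n, if j ≠ k ∧ n ∈ S (s j) then h (s k) n else 0 := by
    intro j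
    by_cases hj : j = k
    · simp [a, hj]
    · simp only [a, if_neg (hs.ne hj), ne_eq, hj, not_false_eq_true, true_and]
      rw [tsum_eq_sum (s := S (s j)) fun n hn => if_neg hn]
      exact Finset.sum_congr rfl fun n hn => (if_pos hn).symm
  simp only [h1]
  rw [ENNReal.tsum_comm]
  refine ENNReal.tsum_le_tsum fun n => ?_
  by_cases hn : n ∈ {n | ∃ j, j ≠ k ∧ n ∈ S (s j)}
  · rw [indicator_of_mem hn]
    obtain ⟨j, hj⟩ := hn
    exact le_trans (if_pos hj).ge
      (ENNReal.le_tsum (f := fun j => if j ≠ k ∧ n ∈ S (s j) then h (s k) n else 0) j)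
  · rw [indicator_of_notMem hn]
    exact zero_le

end Pool.Agent.H.MP_5801e7_an
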