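import Mathlib

set_option autoImplicit false

namespace Pool.Agent.H.MP_5801e7_an

open Set Filter Topology BoundedContinuousFunction

section
variable (𝕜 : Type) [RCLike 𝕜] (E : Type) [NormedAddCommGroup E] [NormedSpace 𝕜 E]

def Zf (l : Filter ℕ) : Submodule 𝕜 (ℕ →ᵇ E) where
  carrier := {f | Tendsto f l (𝓝 0)}
  add_mem' := fun {a b} ha hb => by
    have := Tendsto.add ha hb
    rw [add_zero] at this
    exact this
  zero_mem' := tendsto_const_nhds
  smul_mem' := fun c a ha => by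
    have := Tendsto.const_smul ha c
    rw [smul_zero] at this
    exact this

theorem Zf_closed (l : Filter ℕ) : IsClosed (Zf 𝕜 E l : Set (ℕ →ᵇ E)) := by
  refine isClosed_of_closure_subset fun f hf => ?_
  show Tendsto f l (𝓝 0)
  rw [Metric.tendsto_nhds]
  intro ε hε
  obtain ⟨g, hg, hd⟩ := Metric.mem_closure_iff.1 hf (ε / 2) (half_pos hε)
  filter_upwards [Metric.tendsto_nhds.1 hg (ε / 2) (half_pos hε)] with n hn
  have := dist_triangle (f n) (g n) 0
  have := dist_coe_le_dist (f := f) (g := g) n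
  linarith

def c0 : Type := Zf 𝕜 E cofinite

noncomputable instance : NormedAddCommGroup (c0 𝕜 E) :=
  inferInstanceAs (NormedAddCommGroup (Zf 𝕜 E cofinite))
noncomputable instance : NormedSpace 𝕜 (c0 𝕜 E) :=
  inferInstanceAs (NormedSpace 𝕜 (Zf 𝕜 E cofinite))
instance [CompleteSpace E] : CompleteSpace (c0 𝕜 E) :=
  (Zf_closed 𝕜 E cofinite).completeSpace_coe

end

variable {𝕜 : Type} [RCLike 𝕜] {E A B C : Type} [NormedAddCommGroup E] [NormedSpace 𝕜 E]
  [NormedAddCommGroup A] [NormedSpace 𝕜 A] [NormedAddCommGroup B] [NormedSpace 𝕜 B]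
  [NormedAddCommGroup C] [NormedSpace 𝕜 C]

noncomputable def mkL (φ : ℕ → A →L[𝕜] E) (c : ℝ) (h : ∀ n a, ‖φ n a‖ ≤ c * ‖a‖) :
    A →L[𝕜] (ℕ →ᵇ E) :=
  LinearMap.mkContinuous
    { toFun := fun a => ofNormedAddCommGroupDiscrete (fun n => φ n a) (c * ‖a‖) (fun n => h n a)
      map_add' := fun v w => by ext1 m; simp
      map_smul' := fun c v => by ext1 m; simp } c
    (fun a => (norm_le ((norm_nonneg _).trans (h 0 a))).2 fun n => h n a)

@[simp] theorem mkL_apply (φ : ℕ → A →L[𝕜] E) (c : ℝ) (h : ∀ n a, ‖φ n a‖ ≤ c * ‖a‖) (a : A)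
    (n : ℕ) : mkL φ c h a n = φ n a := rfl

noncomputable def inc : c0 𝕜 E →L[𝕜] (ℕ →ᵇ E) := (Zf 𝕜 E cofinite).subtypeL

theorem norm_inc (f : c0 𝕜 E) : ‖inc f‖ = ‖f‖ := rfl

theorem inc_tendsto (f : c0 𝕜 E) : Tendsto (inc f) cofinite (𝓝 0) := Subtype.property f

theorem c0_ext {f g : c0 𝕜 E} (h : ∀ n, inc f n = inc g n) : f = g :=
  Subtype.ext (BoundedContinuousFunction.ext h)

noncomputable def ev (n : ℕ) : c0 𝕜 E →L[𝕜] E := evalCLM 𝕜 n ∘L inc

@[simp] theorem ev_apply (n : ℕ) (f : c0 𝕜 E) : ev n f = inc f n := rfl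

theorem norm_ev (n : ℕ) (f : c0 𝕜 E) : ‖inc f n‖ ≤ ‖f‖ := norm_coe_le_norm (inc f) n

noncomputable def mk0 (φ : ℕ → A →L[𝕜] E) (c : ℝ) (h : ∀ n a, ‖φ n a‖ ≤ c * ‖a‖)
    (h' : ∀ a, Tendsto (fun n => φ n a) cofinite (𝓝 0)) : A →L[𝕜] c0 𝕜 E :=
  (mkL φ c h).codRestrict (Zf 𝕜 E cofinite) h'

@[simp] theorem mk0_apply (φ : ℕ → A →L[𝕜] E) (c : ℝ) (h : ∀ n a, ‖φ n a‖ ≤ c * ‖a‖)
    (h' : ∀ a, Tendsto (fun n => φ n a) cofinite (𝓝 0)) (a : A) (n : ℕ) :
    inc (mk0 φ c h h' a) n = φ n a := rfl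

noncomputable def sg0 (n : ℕ) : E →L[𝕜] c0 𝕜 E :=
  mk0 (fun m => if m = n then ContinuousLinearMap.id 𝕜 E else 0) 1
    (fun m a => by split_ifs <;> simp) (fun a => tendsto_const_nhds.congr' (by
      filter_upwards [eventually_cofinite_ne n] with m hm
      simp [hm]))

theorem sg0_apply (n m : ℕ) (v : E) : inc (sg0 (𝕜 := 𝕜) n v) m = if m = n then v else 0 := by
  rw [sg0, mk0_apply]
  split_ifs <;> rfl

noncomputable def res (ι : ℕ → ℕ) (hι : Function.Injective ι) : c0 𝕜 E →L[𝕜] c0 𝕜 E :=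
  mk0 (fun n => ev (ι n)) 1 (fun n a => by simpa using norm_ev _ a)
    (fun a => (inc_tendsto a).comp hι.tendsto_cofinite)

@[simp] theorem res_apply (ι : ℕ → ℕ) (hι : Function.Injective ι) (f : c0 𝕜 E) (n : ℕ) :
    inc (res ι hι f) n = inc f (ι n) := rfl

noncomputable def ext (ι : ℕ → ℕ) (hι : Function.Injective ι) : c0 𝕜 E →L[𝕜] c0 𝕜 E :=
  mk0 (Function.extend ι ev 0) 1 (fun n a => by
    by_cases h : ∃ k, ι k = n
    · obtain ⟨k, rfl⟩ := h
      rw [hι.extend_apply]; simpa using norm_ev _ a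
    · rw [Function.extend_apply' _ _ _ h]; simp) (fun a => by
    intro U hU
    rw [mem_map, mem_cofinite]
    refine ((mem_cofinite.1 (inc_tendsto a hU)).image ι).subset fun n hn => ?_
    by_cases h : ∃ k, ι k = n
    · obtain ⟨k, rfl⟩ := h
      refine ⟨k, fun hk => hn ?_, rfl⟩
      simpa [hι.extend_apply] using hk
    · refine absurd ?_ hn
      simpa [Function.extend_apply' _ _ _ h] using mem_of_mem_nhds hU)

theorem ext_apply (ι : ℕ → ℕ) (hι : Function.Injective ι) (f : c0 𝕜 E) (n : ℕ) :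
    inc (ext ι hι f) (ι n) = inc f n := by
  rw [ext, mk0_apply, hι.extend_apply]; rfl

theorem ext_apply' (ι : ℕ → ℕ) (hι : Function.Injective ι) (f : c0 𝕜 E) (n : ℕ)
    (h : ¬ ∃ k, ι k = n) : inc (ext ι hι f) n = 0 := by
  rw [ext, mk0_apply, Function.extend_apply' _ _ _ h]; rfl

variable (𝕜 A B) in
def Fac : Prop := ∃ (J : A →L[𝕜] B) (R : B →L[𝕜] A), ∀ a, R (J a) = a

theorem Fac.trans (h : Fac 𝕜 A B) (h' : Fac 𝕜 B C) : Fac 𝕜 A C := by
  obtain ⟨J, R, h⟩ := h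
  obtain ⟨J', R', h'⟩ := h'
  exact ⟨J' ∘L J, R ∘L R', fun a => by simp [h, h']⟩

noncomputable def c0map (T : A →L[𝕜] B) : c0 𝕜 A →L[𝕜] c0 𝕜 B :=
  mk0 (fun n => T ∘L ev n) ‖T‖ (fun n a => T.le_of_opNorm_le_of_le le_rfl (norm_ev n a))
    (fun a => by
      have := (T.continuous.tendsto 0).comp (inc_tendsto a)
      rw [map_zero] at this
      exact this)

theorem Fac.c0 (h : Fac 𝕜 A B) : Fac 𝕜 (c0 𝕜 A) (c0 𝕜 B) := by
  obtain ⟨J, R, h⟩ := h
  exact ⟨c0map J, c0map R, fun a => c0_ext fun n => h _⟩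

theorem fac_prod : Fac 𝕜 (E × E) (c0 𝕜 E) :=
  ⟨(sg0 0).coprod (sg0 1), (ev 0).prod (ev 1), fun a => by
    ext <;> simp [sg0_apply]⟩

theorem fac_curry : Fac 𝕜 (c0 𝕜 (c0 𝕜 E)) (c0 𝕜 E) := by
  have hi : ∀ i, Function.Injective (Nat.pair i) := fun i x y hxy => (Nat.pair_eq_pair.1 hxy).2
  refine ⟨mk0 (fun n => ev (Nat.unpair n).2 ∘L ev (Nat.unpair n).1) 1
    (fun n a => by simpa using (norm_ev _ _).trans (norm_ev _ a)) fun a => ?_,
    mk0 (fun i => res (Nat.pair i) (hi i)) 1 (fun n a => ?_) fun a => ?_,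
    fun a => c0_ext fun i => c0_ext fun j => by simp⟩
  · rw [NormedAddGroup.tendsto_nhds_zero]
    intro ε hε
    have h1 := eventually_cofinite.1 (NormedAddGroup.tendsto_nhds_zero.1 (inc_tendsto a) ε hε)
    have h2 := fun i => eventually_cofinite.1
      (NormedAddGroup.tendsto_nhds_zero.1 (inc_tendsto (inc a i)) ε hε)
    rw [eventually_cofinite]
    refine (h1.biUnion fun i _ => (h2 i).image (Nat.pair i)).subset fun n hn => ?_
    simp only [mem_iUnion]
    exact ⟨(Nat.unpair n).1, fun h => hn ((norm_ev _ _).trans_lt h), (Nat.unpair n).2, hn,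
      Nat.pair_unpair n⟩
  · rw [one_mul, ← norm_inc]
    exact (norm_le (norm_nonneg _)).2 fun k => norm_ev _ a
  · rw [NormedAddGroup.tendsto_nhds_zero]
    intro ε hε
    have h1 := eventually_cofinite.1
      (NormedAddGroup.tendsto_nhds_zero.1 (inc_tendsto a) (ε / 2) (half_pos hε))
    rw [eventually_cofinite]
    refine (h1.image fun n => (Nat.unpair n).1).subset fun i hi' => ?_
    by_contra hc
    refine hi' (lt_of_le_of_lt ?_ (half_lt_self hε))
    rw [← norm_inc]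
    refine (norm_le (half_pos hε).le).2 fun k => ?_
    by_contra h
    exact hc ⟨Nat.pair i k, fun h' => h h'.le, by simp⟩

noncomputable def shift : c0 𝕜 E ≃L[𝕜] E × c0 𝕜 E :=
  ContinuousLinearEquiv.equivOfInverse ((ev 0).prod (res Nat.succ Nat.succ_injective))
    ((sg0 0).coprod (ext Nat.succ Nat.succ_injective))
    (fun f => c0_ext fun n => by
      cases n with
      | zero => simp [sg0_apply, ext_apply']
      | succ n =>
        have := ext_apply Nat.succ Nat.succ_injective (res Nat.succ Nat.succ_injective f) n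
        rw [res_apply] at this
        simpa [sg0_apply] using this)
    (fun a => by
      refine Prod.ext ?_ (c0_ext fun n => ?_)
      · simp [sg0_apply, ext_apply']
      · simpa [sg0_apply] using ext_apply Nat.succ Nat.succ_injective _ n)

theorem swindle (h : Fac 𝕜 (c0 𝕜 A) B) : Nonempty ((B × A) ≃L[𝕜] B) := by
  obtain ⟨J, R, h⟩ := h
  let e := ContinuousLinearEquiv.equivOfRightInverse R J h
  refine ⟨(e.prodCongr (ContinuousLinearEquiv.refl 𝕜 A)).trans ?_⟩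
  refine (ContinuousLinearEquiv.prodComm 𝕜 _ _).trans ?_
  refine (ContinuousLinearEquiv.prodAssoc 𝕜 _ _ _).symm.trans ?_
  exact (shift.symm.prodCongr (ContinuousLinearEquiv.refl 𝕜 _)).trans e.symm

end Pool.Agent.H.MP_5801e7_an
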