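import Mathlib
import Pool.Agent.H.MP_5801e7_an.A
import Pool.Agent.H.MP_5801e7_an.B

set_option autoImplicit false

namespace Pool.Agent.H.MP_5801e7_an

open Set Filter Topology BoundedContinuousFunction
open scoped ENNReal

abbrev I := Set.Icc (0 : ℝ) 1
abbrev K := I × I

noncomputable def pt (n : ℕ) : K := TopologicalSpace.denseSeq K (Nat.unpair n).1

noncomputable def FF (p : K) : Filter ℕ := cofinite ⊓ comap pt (𝓝 p)

def Rs : Set K := range (TopologicalSpace.denseSeq K)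

theorem exists_seq (p : K) : ∃ n : ℕ → ℕ, Function.Injective n ∧ Tendsto (pt ∘ n) atTop (𝓝 p) := by
  obtain ⟨u, hu, hl⟩ := mem_closure_iff_seq_limit.1 (TopologicalSpace.denseRange_denseSeq K p)
  choose d hd using hu
  refine ⟨fun k => Nat.pair (d k) k, fun a b h => (Nat.pair_eq_pair.1 h).2, hl.congr fun k => ?_⟩
  simp [pt, hd]

theorem to_FF {q : K} {m : ℕ → ℕ} (h1 : Tendsto m atTop atTop)
    (h2 : Tendsto (pt ∘ m) atTop (𝓝 q)) : Tendsto m atTop (FF q) :=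
  tendsto_inf.2 ⟨Nat.cofinite_eq_atTop ▸ h1, tendsto_comap_iff.2 h2⟩

instance (p : K) : (FF p).NeBot := by
  obtain ⟨n, h1, h2⟩ := exists_seq p
  exact (to_FF h1.nat_tendsto_atTop h2).neBot

theorem mem_FF_ev {U : Set ℕ} {p : K} (h : U ∈ FF p) : ∀ᶠ q in 𝓝 p, U ∈ FF q := by
  obtain ⟨A, hA, B, ⟨V, hV, hB⟩, rfl⟩ := mem_inf_iff.1 h
  filter_upwards [eventually_mem_nhds_iff.2 hV] with q hq
  exact inter_mem_inf hA ⟨V, hq, hB⟩

theorem cof {U : Set ℕ} (h : ∀ q, U ∈ FF q) : U ∈ cofinite := by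
  by_contra hc
  have : (cofinite ⊓ 𝓟 Uᶜ).NeBot := by
    rw [← not_not (a := NeBot _), not_neBot, inf_principal_eq_bot, compl_compl]; exact hc
  obtain ⟨u, hu⟩ := Ultrafilter.exists_le (cofinite ⊓ 𝓟 Uᶜ)
  obtain ⟨q, -, hq⟩ := isCompact_univ.ultrafilter_le_nhds (u.map pt) (by simp)
  have h1 : (u : Filter ℕ) ≤ FF q := le_inf (hu.trans inf_le_left) (map_le_iff_le_comap.1 hq)
  exact Ultrafilter.compl_mem_iff_notMem.1 (le_principal_iff.1 (hu.trans inf_le_right)) (h1 (h q))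

variable {𝕜 : Type} [RCLike 𝕜] {H : Type} [NormedAddCommGroup H] [InnerProductSpace 𝕜 H]

def Adm (e : H) (p : K) (x : ℕ →ᵇ H) : Prop :=
  ‖x‖ ≤ 1 ∧ Tendsto pt (cofinite ⊓ 𝓟 {n | x n ≠ 0}) (𝓝 p) ∧
    (x = 0 ∨ (p ∉ Rs ∧ ∃ᶠ n in FF p, x n = e))

def Cand (t : ℕ → ℕ → H →L[𝕜] H) (M : ℝ) : Prop :=
  ∀ m (s : Finset ℕ) (f : ℕ → H), (∀ n, ‖f n‖ ≤ 1) → ‖∑ n ∈ s, t m n (f n)‖ ≤ M

def Nice (t : ℕ → ℕ → H →L[𝕜] H) (δ : ℝ) (p : K) : Prop :=
  ∃ l : 𝕜, ∃ U ∈ FF p, ∀ (s : Finset ℕ) (f : ℕ → H), ↑s ⊆ U → (∀ n, ‖f n‖ ≤ 1) →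
    ∀ m, ‖∑ n ∈ s, t m n (f n) - l • (if m ∈ s then f m else 0)‖ ≤ δ

def Defeat (t : ℕ → ℕ → H →L[𝕜] H) (p : K) (x : ℕ →ᵇ H) (q : K) (y : ℕ →ᵇ H) : Prop :=
  ¬ ∃ a b : 𝕜, Tendsto (fun m => ∑' n, t m n (x n) - a • x m) (FF p) (𝓝 0) ∧
    Tendsto (fun m => ∑' n, t m n (x n) - b • y m) (FF q) (𝓝 0)

theorem tail {t : ℕ → ℕ → H →L[𝕜] H} {M : ℝ} (h : Cand t M) (m : ℕ) {ε : ℝ} (hε : 0 < ε) :
    ∃ N, ∀ (s : Finset ℕ) (f : ℕ → H), (∀ n ∈ s, N ≤ n) → (∀ n, ‖f n‖ ≤ 1) →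
      ‖∑ n ∈ s, t m n (f n)‖ ≤ ε := by
  classical
  by_contra hc
  push Not at hc
  have key : ∀ j : ℕ, ∃ (s : Finset ℕ) (f : ℕ → H), (∀ n, ‖f n‖ ≤ 1) ∧
      j * ε ^ 2 ≤ ‖∑ n ∈ s, t m n (f n)‖ ^ 2 := by
    intro j
    induction j with
    | zero => exact ⟨∅, 0, by simp, by simp⟩
    | succ j ih =>
      obtain ⟨s, f, hf, hs⟩ := ih
      obtain ⟨s', f', h1, hf', h2⟩ := hc (s.sup id + 1)
      have hd : Disjoint s s' := Finset.disjoint_left.2 fun n hn hn' => by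
        have := Finset.le_sup (f := id) hn
        have := h1 n hn'
        simp only [id] at *
        omega
      have hsum : ∀ g : ℕ → H, ∑ n ∈ s ∪ s', t m n (if n ∈ s then f n else g n) =
          ∑ n ∈ s, t m n (f n) + ∑ n ∈ s', t m n (g n) := by
        intro g
        rw [Finset.sum_union hd]
        congr 1
        · exact Finset.sum_congr rfl fun n hn => by rw [if_pos hn]
        · exact Finset.sum_congr rfl fun n hn => by
            rw [if_neg (Finset.disjoint_right.1 hd hn)]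
      have hp := parallelogram_law_with_norm 𝕜 (∑ n ∈ s, t m n (f n)) (∑ n ∈ s', t m n (f' n))
      have h3 : ε ^ 2 ≤ ‖∑ n ∈ s', t m n (f' n)‖ ^ 2 := by gcongr
      by_cases hcase : (j + 1 : ℕ) * ε ^ 2 ≤
          ‖∑ n ∈ s, t m n (f n) + ∑ n ∈ s', t m n (f' n)‖ ^ 2
      · exact ⟨s ∪ s', fun n => if n ∈ s then f n else f' n,
          fun n => by beta_reduce; split_ifs <;> simp [hf, hf'], by rw [hsum]; exact hcase⟩
      · refine ⟨s ∪ s', fun n => if n ∈ s then f n else -f' n,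
          fun n => by beta_reduce; split_ifs <;> simp [hf, hf'], ?_⟩
        rw [hsum fun n => -f' n]
        simp only [map_neg, Finset.sum_neg_distrib, ← sub_eq_add_neg]
        push_cast at hcase ⊢
        linarith
  obtain ⟨j, hj⟩ := exists_nat_gt (M ^ 2 / ε ^ 2)
  obtain ⟨s, f, hf, hs⟩ := key j
  have h1 : ‖∑ n ∈ s, t m n (f n)‖ ^ 2 ≤ M ^ 2 := by
    gcongr; exact h m s f hf
  rw [div_lt_iff₀ (by positivity)] at hj
  linarith

theorem Cand.summable [CompleteSpace H] {t : ℕ → ℕ → H →L[𝕜] H} {M : ℝ} (h : Cand t M) (m : ℕ)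
    {f : ℕ → H} (hf : ∀ n, ‖f n‖ ≤ 1) : Summable fun n => t m n (f n) := by
  rw [summable_iff_vanishing_norm]
  intro ε hε
  obtain ⟨N, hN⟩ := tail h m (half_pos hε)
  refine ⟨Finset.range N, fun s hs => (hN s f (fun n hn => ?_) hf).trans_lt (half_lt_self hε)⟩
  simpa using Finset.disjoint_left.1 hs hn

theorem Cand.row {t : ℕ → ℕ → H →L[𝕜] H} {M : ℝ} (h : Cand t M) (m : ℕ) {ψ : H →L[𝕜] 𝕜}
    (hψ : ‖ψ‖ ≤ 1) : ∑' n, ‖ψ ∘L t m n‖ₑ ≤ ENNReal.ofReal (2 * M) := by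
  have h1 : ∀ n, ∃ g : H, ‖g‖ ≤ 1 ∧ ‖ψ ∘L t m n‖ ≤ 2 * RCLike.re (ψ (t m n g)) := by
    intro n
    by_cases h0 : ‖ψ ∘L t m n‖ = 0
    · exact ⟨0, by simp, by simp [h0]⟩
    have hpos : 0 < ‖ψ ∘L t m n‖ := lt_of_le_of_ne (norm_nonneg _) (Ne.symm h0)
    obtain ⟨g, hg, hg'⟩ := (ψ ∘L t m n).exists_lt_apply_of_lt_opNorm (half_lt_self hpos)
    obtain ⟨c, hc, hc'⟩ := RCLike.exists_norm_eq_mul_self (ψ (t m n g))
    refine ⟨c • g, by rw [norm_smul, hc, one_mul]; exact hg.le, ?_⟩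
    rw [map_smul, map_smul, smul_eq_mul, ← hc', RCLike.ofReal_re]
    rw [ContinuousLinearMap.comp_apply] at hg'
    linarith
  choose g hg hg' using h1
  refine ENNReal.summable.tsum_le_of_sum_le fun s => ?_
  simp only [← ofReal_norm]
  rw [← ENNReal.ofReal_sum_of_nonneg fun _ _ => norm_nonneg _]
  refine ENNReal.ofReal_le_ofReal ((Finset.sum_le_sum fun n _ => hg' n).trans ?_)
  rw [← Finset.mul_sum, ← map_sum, ← map_sum]
  have := (RCLike.re_le_norm _).trans (ψ.le_of_opNorm_le_of_le hψ (h m s g hg))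
  linarith

theorem step2 [CompleteSpace H] {e : H} (he : ‖e‖ = 1) {t : ℕ → ℕ → H →L[𝕜] H} {M δ : ℝ}
    (hM : Cand t M) (hδ : 0 < δ) {p q : K} (hp : p ∉ Rs) (y : K → ℕ →ᵇ H)
    (S s : ℕ → Finset ℕ) (ν m : ℕ → ℕ) (f : ℕ → ℕ → H) (ψ : ℕ → H →L[𝕜] 𝕜) (l c : 𝕜)
    (hd : ∀ i j, i ≠ j → Disjoint (S i) (S j))
    (hS : ∀ V ∈ 𝓝 p, ∀ᶠ k in atTop, ∀ n ∈ S k, pt n ∈ V)
    (hs : ∀ k, s k ⊆ S k) (hν : ∀ k, ν k ∈ S k)
    (hl : Tendsto (fun k => innerSL 𝕜 e (t (ν k) (ν k) e)) atTop (𝓝 l))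
    (hf : ∀ k n, ‖f k n‖ ≤ 1) (hm : Tendsto m atTop atTop) (hψ : ∀ k, ‖ψ k‖ ≤ 1)
    (hbig : ∀ k, δ < ‖ψ k (∑ n ∈ s k, t (m k) n (f k n)) -
      l * ψ k (if m k ∈ s k then f k (m k) else 0)‖)
    (hq : Tendsto (pt ∘ m) atTop (𝓝 q)) (hc : Tendsto (fun k => ψ k (y q (m k))) atTop (𝓝 c)) :
    ∃ x, (Adm e p x ∧ x ≠ 0) ∧ Defeat t p x q (Function.update y p x q) := by
  classical
  have hM0 : 0 ≤ M := by simpa using hM 0 ∅ 0 (by simp)
  have he1 : ‖innerSL 𝕜 e‖ ≤ 1 := by rw [innerSL_apply_norm, he]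
  have he2 : innerSL 𝕜 e e = 1 := by simp [he]
  obtain ⟨ε, hε0, hε1, hε2⟩ : ∃ ε : ℝ, 0 < ε ∧ ε ≤ δ / 4 ∧ ε < 1 :=
    ⟨min (δ / 4) (1 / 2), by positivity, min_le_left _ _,
      (min_le_right _ _).trans_lt (by norm_num)⟩
  let h : ℕ → ℕ → ℝ≥0∞ := fun k n => ‖ψ k ∘L t (m k) n‖ₑ + ‖innerSL 𝕜 e ∘L t (ν k) n‖ₑ +
    if n = m k then 1 else 0
  obtain ⟨σ, hσ, hr⟩ := ros2 S hd h (M := 2 * M + 2 * M + 1) (fun k => by
    simp only [h]
    rw [ENNReal.tsum_add, ENNReal.tsum_add, tsum_ite_eq,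
      ENNReal.ofReal_add (by positivity) zero_le_one,
      ENNReal.ofReal_add (by positivity) (by positivity), ENNReal.ofReal_one]
    exact add_le_add (add_le_add (hM.row _ (hψ k)) (hM.row _ he1)) le_rfl) hε0
  obtain ⟨v, hv⟩ : ∃ v : ℕ → ℕ → H, v = fun k n => if (Nat.unpair k).1 = 0 then
    (if n = ν (σ k) then e else 0) else if (Nat.unpair k).1 = 1 then
      (if n ∈ s (σ k) then f (σ k) n else 0) else 0 := ⟨_, rfl⟩
  have hv1 : ∀ k n, ‖v k n‖ ≤ 1 := fun k n => by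
    rw [hv]; beta_reduce; split_ifs <;> simp [he, hf]
  have hv2 : ∀ k n, n ∉ S (σ k) → v k n = 0 := fun k n hn => by
    rw [hv]; beta_reduce
    rw [if_neg (fun h' : n = ν (σ k) => hn (h' ▸ hν _)), if_neg (fun h' => hn (hs _ h'))]
    simp
  let x0 : ℕ → H := fun n => if h : ∃ k, n ∈ S (σ k) then v h.choose n else 0
  have hx1 : ∀ k n, n ∈ S (σ k) → x0 n = v k n := by
    intro k n hn
    have h' : ∃ k, n ∈ S (σ k) := ⟨k, hn⟩
    simp only [x0, dif_pos h']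
    by_contra hc
    have : h'.choose ≠ k := fun h'' => hc (by rw [h''])
    exact Finset.disjoint_left.1 (hd _ _ (hσ.ne this)) h'.choose_spec hn
  have hx2 : ∀ n, (¬ ∃ k, n ∈ S (σ k)) → x0 n = 0 := fun n hn => dif_neg hn
  have hx3 : ∀ n, ‖x0 n‖ ≤ 1 := fun n => by
    simp only [x0]; split_ifs <;> simp [hv1]
  have hxm : ∀ k, x0 (m (σ k)) = v k (m (σ k)) := by
    intro k
    by_cases h' : m (σ k) ∈ S (σ k)
    · exact hx1 k _ h'
    rw [hv2 k _ h']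
    refine hx2 _ fun ⟨j, hj⟩ => ?_
    have hjk : j ≠ k := fun h'' => h' (h'' ▸ hj)
    have h1 := (ENNReal.le_tsum (m (σ k))).trans (hr k)
    rw [indicator_of_mem (by exact ⟨j, hjk, hj⟩)] at h1
    simp only [h, if_true] at h1
    exact absurd (ENNReal.one_le_ofReal.1 (le_add_self.trans h1)) (not_le.2 hε2)
  have est : ∀ k a (χ : H →L[𝕜] 𝕜), (∀ n, ‖χ ∘L t a n‖ₑ ≤ h (σ k) n) →
      ‖χ (∑' n, t a n (x0 n)) - χ (∑ n ∈ S (σ k), t a n (v k n))‖ ≤ ε := by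
    intro k a χ hχ
    have h1 := hM.summable a hx3
    rw [← h1.sum_add_tsum_compl (s := S (σ k)),
      Finset.sum_congr rfl fun n hn => by rw [hx1 k n hn], map_add, add_sub_cancel_left,
      χ.map_tsum (f := fun x : ↑((S (σ k) : Set ℕ))ᶜ => t a x (x0 x)) (h1.subtype _), ← ENNReal.ofReal_le_ofReal_iff hε0.le, ofReal_norm]
    refine enorm_tsum_le_tsum_enorm.trans (le_trans ?_ (hr k))
    rw [tsum_subtype (f := fun n => ‖χ (t a n (x0 n))‖ₑ)]
    refine ENNReal.tsum_le_tsum fun n => ?_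
    by_cases hn : n ∈ ((S (σ k) : Set ℕ))ᶜ
    · rw [indicator_of_mem hn]
      by_cases h' : ∃ j, n ∈ S (σ j)
      · obtain ⟨j, hj⟩ := h'
        rw [indicator_of_mem (by exact ⟨j, fun h'' => hn (h'' ▸ hj), hj⟩)]
        refine le_trans ?_ (hχ n)
        rw [← ofReal_norm, ← ofReal_norm]
        exact ENNReal.ofReal_le_ofReal
          (((χ ∘L t a n).le_of_opNorm_le_of_le le_rfl (hx3 n)).trans (mul_one _).le)
      · simp [hx2 n h']
    · simp [indicator_of_notMem hn]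
  have hpair : ∀ c, Tendsto (fun i => σ (Nat.pair c i)) atTop atTop := fun c =>
    (hσ.comp fun a b h => (Nat.pair_eq_pair.1 h).2).nat_tendsto_atTop
  have hνi : Function.Injective ν := fun a b hab => by
    by_contra hc
    exact Finset.disjoint_left.1 (hd a b hc) (hν a) (hab ▸ hν b)
  have hνF : Tendsto ν atTop (FF p) := to_FF hνi.nat_tendsto_atTop fun V hV => by
    rw [mem_map]
    filter_upwards [hS V hV] with k hk using hk _ (hν k)
  have hxν : ∀ i, x0 (ν (σ (Nat.pair 0 i))) = e := fun i => by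
    rw [hx1 _ _ (hν _), hv]; simp
  have hfr : ∃ᶠ n in FF p, x0 n = e :=
    (hνF.comp (hpair 0)).frequently (Frequently.of_forall hxν)
  refine ⟨ofNormedAddCommGroupDiscrete x0 1 hx3, ⟨⟨(norm_le zero_le_one).2 hx3, ?_,
    Or.inr ⟨hp, hfr⟩⟩, fun h0 => ?_⟩, ?_⟩
  · intro V hV
    have h2 := hσ.nat_tendsto_atTop.eventually (hS V hV)
    rw [← Nat.cofinite_eq_atTop, eventually_cofinite] at h2
    rw [mem_map, mem_inf_principal, mem_cofinite]
    refine (h2.biUnion fun k _ => (S (σ k)).finite_toSet).subset fun n hn => ?_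
    simp only [mem_compl_iff, mem_ofPred_eq, Classical.not_imp] at hn
    obtain ⟨k, hk⟩ : ∃ k, n ∈ S (σ k) := by
      by_contra hc
      exact hn.1 (hx2 n hc)
    simp only [mem_iUnion]
    exact ⟨k, fun h' => hn.2 (h' n hk), hk⟩
  · have := hxν 0
    rw [show x0 _ = 0 from DFunLike.congr_fun h0 _] at this
    rw [← this, norm_zero] at he
    exact zero_ne_one he
  rintro ⟨a, b, h1, h2⟩
  simp only [coe_ofNormedAddCommGroupDiscrete] at h1 h2
  have sq : ∀ {χ : ℕ → H →L[𝕜] 𝕜} {u : ℕ → H}, (∀ k, ‖χ k‖ ≤ 1) → Tendsto u atTop (𝓝 0) →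
      Tendsto (fun k => χ k (u k)) atTop (𝓝 0) := fun hχ hu =>
    squeeze_zero_norm (fun k => ((ContinuousLinearMap.le_of_opNorm_le _ (hχ k) _).trans
      (one_mul _).le)) (tendsto_zero_iff_norm_tendsto_zero.1 hu)
  have e1 : ∀ i, ‖ψ (σ (Nat.pair 1 i)) (∑' n, t (m (σ (Nat.pair 1 i))) n (x0 n)) -
      ψ (σ (Nat.pair 1 i)) (∑ n ∈ s (σ (Nat.pair 1 i)), t (m (σ (Nat.pair 1 i))) n
        (f (σ (Nat.pair 1 i)) n))‖ ≤ ε := by
    intro i
    have := est (Nat.pair 1 i) _ _ fun n => le_self_add.trans le_self_add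
    rw [← Finset.sum_subset (hs _) (fun n _ hn => by simp [hv, hn]),
      Finset.sum_congr rfl (g := fun n => t (m (σ (Nat.pair 1 i))) n (f (σ (Nat.pair 1 i)) n))
        (fun n hn => by simp [hv, hn])] at this
    exact this
  by_cases hqp : q = p
  · subst hqp
    have k0 : ‖a - l‖ ≤ ε := by
      have h3 := sq (fun _ => he1) ((h1.comp hνF).comp (hpair 0))
      have h4 := ((h3.add_const a).sub (hl.comp (hpair 0))).norm
      rw [zero_add] at h4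
      refine le_of_tendsto' h4 fun i => ?_
      have := est (Nat.pair 0 i) _ _ fun n => le_add_self.trans le_self_add
      rw [Finset.sum_eq_single (ν (σ (Nat.pair 0 i))) (fun n _ hn => by simp [hv, hn])
        (fun hn => absurd (hν _) hn), ← hx1 _ _ (hν _), hxν] at this
      simp only [Function.comp, map_sub, map_smul, hxν, he2, smul_eq_mul, mul_one, sub_add_cancel]
      exact this
    have h3 := (sq (fun i => hψ (σ (Nat.pair 1 i))) ((h1.comp (to_FF hm hq)).comp (hpair 1))).norm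
    rw [norm_zero] at h3
    obtain ⟨i, hi⟩ := (h3.eventually (gt_mem_nhds hε0)).exists
    have h4 := e1 i
    have h5 := hbig (σ (Nat.pair 1 i))
    have h6 : x0 (m (σ (Nat.pair 1 i))) = if m (σ (Nat.pair 1 i)) ∈ s (σ (Nat.pair 1 i)) then
        f (σ (Nat.pair 1 i)) (m (σ (Nat.pair 1 i))) else 0 := by rw [hxm, hv]; simp
    rw [← h6] at h5
    simp only [Function.comp, map_sub, map_smul, smul_eq_mul] at hi
    have h7 := (ψ (σ (Nat.pair 1 i))).le_of_opNorm_le_of_le (hψ _) (hx3 (m (σ (Nat.pair 1 i))))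
    generalize ψ (σ (Nat.pair 1 i)) (x0 (m (σ (Nat.pair 1 i)))) = w at *
    generalize ψ (σ (Nat.pair 1 i)) (∑' n, t (m (σ (Nat.pair 1 i))) n (x0 n)) = z at *
    generalize ψ (σ (Nat.pair 1 i)) (∑ n ∈ s (σ (Nat.pair 1 i)), t (m (σ (Nat.pair 1 i))) n
        (f (σ (Nat.pair 1 i)) n)) = u at *
    have h8 : u - l * w = (z - a * w) - (z - u) + (a - l) * w := by ring
    have h9 : ‖(a - l) * w‖ ≤ ε * (1 * 1) := by rw [norm_mul]; gcongr
    have h10 := norm_add_le ((z - a * w) - (z - u)) ((a - l) * w)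
    have h11 := norm_sub_le (z - a * w) (z - u)
    rw [← h8] at h10
    linarith
  · rw [Function.update_of_ne hqp] at h2
    have h3 := (sq hψ (h2.comp (to_FF hm hq))).add (hc.const_mul b)
    simp only [Function.comp, map_sub, map_smul, smul_eq_mul, sub_add_cancel, zero_add] at h3
    have k2 : ‖b * c‖ ≤ ε := le_of_tendsto' (h3.comp (hpair 2)).norm fun i => by
      have := est (Nat.pair 2 i) _ _ fun n => le_self_add.trans le_self_add
      simpa [hv] using this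
    obtain ⟨V, W, hV, hW, hVW⟩ := t2_separation_nhds hqp
    have k1 : δ - ε ≤ ‖b * c‖ := ge_of_tendsto (h3.comp (hpair 1)).norm (by
      filter_upwards [(hpair 1).eventually (hS W hW), (hpair 1).eventually (hq hV)] with i h4 h5
      have h6 := hbig (σ (Nat.pair 1 i))
      rw [if_neg fun h' => disjoint_left.1 hVW h5 (h4 _ (hs _ h')), map_zero, mul_zero,
        sub_zero] at h6
      have h7 := e1 i
      rw [norm_sub_rev] at h7
      have h8 := norm_sub_norm_le (ψ (σ (Nat.pair 1 i)) (∑ n ∈ s (σ (Nat.pair 1 i)),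
        t (m (σ (Nat.pair 1 i))) n (f (σ (Nat.pair 1 i)) n)))
        (ψ (σ (Nat.pair 1 i)) (∑' n, t (m (σ (Nat.pair 1 i))) n (x0 n)))
      simp only [Function.comp]
      linarith)
    linarith

theorem step [CompleteSpace H] {e : H} (he : ‖e‖ = 1) {t : ℕ → ℕ → H →L[𝕜] H} {M δ : ℝ}
    (hM : Cand t M) (hδ : 0 < δ) {p : K} (hp : p ∉ Rs) (hn : ¬ Nice t δ p) (y : K → ℕ →ᵇ H)
    (hy : ∀ q, ‖y q‖ ≤ 1) :
    ∃ x q, (Adm e p x ∧ x ≠ 0) ∧ Defeat t p x q (Function.update y p x q) := by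
  classical
  obtain ⟨n0, hn0, hp0⟩ := exists_seq p
  have he1 : ‖innerSL 𝕜 e‖ ≤ 1 := by rw [innerSL_apply_norm, he]
  obtain ⟨l, -, φ0, hφ0, hl⟩ := (isCompact_closedBall (0 : 𝕜) M).tendsto_subseq
    (x := fun k => innerSL 𝕜 e (t (n0 k) (n0 k) e)) fun k => by
      have := (innerSL 𝕜 e).le_of_opNorm_le_of_le he1 (hM (n0 k) {n0 k} (fun _ => e) fun _ => he.le)
      simpa using this
  have hν0 := (hn0.comp hφ0.injective).nat_tendsto_atTop
  have blk : ∀ k N : ℕ, ∃ (s : Finset ℕ) (f : ℕ → H) (m j : ℕ) (ψ : H →L[𝕜] 𝕜),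
      (∀ n ∈ insert (n0 (φ0 j)) s, N ≤ n ∧ dist (pt n) p < 1 / ((k : ℝ) + 1)) ∧
      (∀ n, ‖f n‖ ≤ 1) ∧ k ≤ m ∧ k ≤ j ∧ ‖ψ‖ ≤ 1 ∧
      δ < ‖ψ (∑ n ∈ s, t m n (f n)) - l * ψ (if m ∈ s then f m else 0)‖ := by
    intro k N
    choose N0 hN0 using fun m => tail hM m hδ
    have hU : ∀ N, {n | N ≤ n ∧ dist (pt n) p < 1 / ((k : ℝ) + 1)} ∈ FF p := fun N =>
      inter_mem_inf (Nat.cofinite_eq_atTop ▸ mem_atTop N)
        (preimage_mem_comap (Metric.ball_mem_nhds p Nat.one_div_pos_of_nat))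
    unfold Nice at hn
    push Not at hn
    obtain ⟨s, f, hs, hf, m, hm⟩ := hn l _ (hU (N + k + (Finset.range k).sup N0))
    obtain ⟨j, hj1, hj2⟩ := (((to_FF hν0 (hp0.comp hφ0.tendsto_atTop)).eventually (hU N)).and
      (eventually_ge_atTop k)).exists
    obtain ⟨ψ, hψ, hψ'⟩ := exists_dual_vector'' 𝕜
      (∑ n ∈ s, t m n (f n) - l • (if m ∈ s then f m else 0))
    refine ⟨s, f, m, j, ψ, fun n hn => ?_, hf, ?_, hj2, hψ, ?_⟩
    · rcases Finset.mem_insert.1 hn with rfl | hn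
      · exact hj1
      · exact ⟨by have := (hs hn).1; omega, (hs hn).2⟩
    · by_contra hc
      have h1 : N0 m ≤ (Finset.range k).sup N0 := Finset.le_sup (by simpa using hc)
      rw [if_neg (fun h => by have := (hs h).1; omega), smul_zero, sub_zero] at hm
      exact absurd (hN0 m s f (fun n hn => by have := (hs hn).1; omega) hf) (not_le.2 hm)
    · rw [← smul_eq_mul, ← map_smul, ← map_sub, hψ']
      simpa using hm
  choose s f m j ψ h1 h2 h3 h4 h5 h6 using blk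
  let N : ℕ → ℕ := fun k => Nat.rec 0
    (fun k N => (insert (n0 (φ0 (j k N))) (s k N)).sup id + 1) k
  have hlt : ∀ k, ∀ n ∈ insert (n0 (φ0 (j k (N k)))) (s k (N k)), n < N (k + 1) := fun k n hn =>
    Nat.lt_succ_of_le (Finset.le_sup (f := id) hn)
  have hmono : Monotone N := monotone_nat_of_le_succ fun k =>
    (h1 k (N k) _ (Finset.mem_insert_self _ _)).1.trans (hlt k _ (Finset.mem_insert_self _ _)).le
  have hd : ∀ a b, a < b → Disjoint (insert (n0 (φ0 (j a (N a)))) (s a (N a)))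
      (insert (n0 (φ0 (j b (N b)))) (s b (N b))) := fun a b hab =>
    Finset.disjoint_left.2 fun n hn hn' =>
      absurd ((hlt a n hn).trans_le ((hmono hab).trans (h1 b _ n hn').1)) (lt_irrefl n)
  obtain ⟨q, φ1, hφ1, hq⟩ := CompactSpace.tendsto_subseq (fun k => pt (m k (N k)))
  obtain ⟨c, -, φ2, hφ2, hc⟩ := (isCompact_closedBall (0 : 𝕜) 1).tendsto_subseq
    (x := fun k => ψ (φ1 k) (N (φ1 k)) (y q (m (φ1 k) (N (φ1 k))))) fun k => by
      have := (ψ (φ1 k) (N (φ1 k))).le_of_opNorm_le_of_le (h5 _ _)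
        ((norm_coe_le_norm (y q) (m (φ1 k) (N (φ1 k)))).trans (hy q))
      simpa using this
  obtain ⟨φ, hφ⟩ : ∃ φ, φ = φ1 ∘ φ2 := ⟨_, rfl⟩
  have hφm : StrictMono φ := hφ ▸ hφ1.comp hφ2
  obtain ⟨x, hx⟩ := step2 he hM hδ (q := q) hp y
    (fun k => insert (n0 (φ0 (j (φ k) (N (φ k))))) (s (φ k) (N (φ k))))
    (fun k => s (φ k) (N (φ k))) (fun k => n0 (φ0 (j (φ k) (N (φ k))))) (fun k => m (φ k) (N (φ k)))
    (fun k => f (φ k) (N (φ k))) (fun k => ψ (φ k) (N (φ k))) l c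
    (fun a b hab => by
      rcases lt_or_gt_of_ne hab with h | h
      · exact hd _ _ (hφm h)
      · exact (hd _ _ (hφm h)).symm)
    (fun V hV => by
      obtain ⟨r, hr, hV⟩ := Metric.mem_nhds_iff.1 hV
      filter_upwards [hφm.tendsto_atTop.eventually
        (tendsto_one_div_add_atTop_nhds_zero_nat.eventually (gt_mem_nhds hr))] with k hk n hn
      exact hV ((h1 _ _ n hn).2.trans hk))
    (fun k => Finset.subset_insert _ _) (fun k => Finset.mem_insert_self _ _)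
    (hl.comp (tendsto_atTop_mono (fun k => h4 (φ k) (N (φ k))) hφm.tendsto_atTop))
    (fun k => h2 _ _) (tendsto_atTop_mono (fun k => h3 (φ k) (N (φ k))) hφm.tendsto_atTop)
    (fun k => h5 _ _) (fun k => h6 _ _) (hφ ▸ hq.comp hφ2.tendsto_atTop) (hφ ▸ hc)
  exact ⟨x, q, hx⟩

end Pool.Agent.H.MP_5801e7_an
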