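import Mathlib
import Pool.Agent.H.MP_5801e7_an.C

set_option autoImplicit false

namespace Pool.Agent.H.MP_5801e7_an

open Set Filter Topology BoundedContinuousFunction Cardinal

variable {𝕜 : Type} [RCLike 𝕜] {H : Type} [NormedAddCommGroup H] [InnerProductSpace 𝕜 H]

theorem K_unc : ¬ (univ : Set K).Countable := by
  intro h
  have h1 : (univ : Set I).Countable := by
    have := h.image Prod.fst
    rwa [image_univ, range_eq_univ.2 Prod.fst_surjective] at this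
  have h2 := le_aleph0_iff_set_countable.2 h1
  rw [mk_univ, mk_Icc_real zero_lt_one] at h2
  exact absurd h2 (not_le.2 aleph0_lt_continuum)

theorem big {C B : Set K} (hC : IsClosed C) (hu : ¬ C.Countable) (h : C ⊆ B ∪ Rs) :
    continuum ≤ #B := by
  obtain ⟨f, hf, -, hi⟩ := hC.exists_nat_bool_injection_of_not_countable hu
  have h1 : continuum ≤ #(↥(B ∪ Rs)) := by
    refine le_trans ?_ (mk_le_mk_of_subset (hf.trans h))
    rw [mk_range_eq f hi]; simp
  by_contra hc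
  refine absurd (h1.trans (mk_union_le _ _)) (not_le.2 (add_lt_of_lt aleph0_le_continuum
    (not_le.1 hc) ?_))
  exact (le_aleph0_iff_set_countable.2 (countable_range _)).trans_lt aleph0_lt_continuum

theorem nice_open (t : ℕ → ℕ → H →L[𝕜] H) (δ : ℝ) : IsClosed {p | ¬ Nice t δ p} := by
  rw [← isOpen_compl_iff, isOpen_iff_mem_nhds]
  intro p hp
  obtain ⟨l, U, hU, h⟩ := not_not.1 hp
  filter_upwards [mem_FF_ev hU] with q hq
  exact not_not.2 ⟨l, U, hq, h⟩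

theorem dummy {e : H} (he : ‖e‖ = 1) {p : K} (hp : p ∉ Rs) : ∃ x, Adm e p x ∧ x ≠ 0 := by
  classical
  obtain ⟨n, hn, hl⟩ := exists_seq p
  have hb : ∀ l, ‖(if l ∈ range n then e else 0)‖ ≤ 1 := fun l => by split_ifs <;> simp [he]
  refine ⟨ofNormedAddCommGroupDiscrete _ 1 hb, ⟨(norm_le zero_le_one).2 hb, fun V hV => ?_,
    Or.inr ⟨hp, (to_FF hn.nat_tendsto_atTop hl).frequently (Frequently.of_forall fun k => ?_)⟩⟩,
    fun h => ?_⟩
  · have h2 := hl hV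
    rw [← Nat.cofinite_eq_atTop, mem_map, mem_cofinite] at h2
    rw [mem_map, mem_inf_principal, mem_cofinite]
    refine (h2.image n).subset fun l hl => ?_
    simp only [mem_compl_iff, mem_ofPred_eq, Classical.not_imp] at hl
    obtain ⟨k, rfl⟩ : l ∈ range n := by
      by_contra hc
      exact hl.1 (if_neg hc)
    exact ⟨k, hl.2, rfl⟩
  · simp
  · have := DFunLike.congr_fun h (n 0)
    simp at this
    simp [this] at he

variable (𝕜) in
theorem exists_family [CompleteSpace H] [TopologicalSpace.SeparableSpace H] {e : H}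
    (he : ‖e‖ = 1) : ∃ x : K → ℕ →ᵇ H, (∀ p, Adm e p (x p)) ∧ ¬ {p | x p ≠ 0}.Countable ∧
      ∀ (t : ℕ → ℕ → H →L[𝕜] H) M δ, Cand t M → 0 < δ → ¬ {p | ¬ Nice t δ p}.Countable →
        ¬ {p | ∃ q, Defeat t p (x p) q (x q)}.Countable := by
  classical
  have hH : #H ≤ continuum := by
    obtain ⟨f, -, hf⟩ := exists_nat_nat_continuous_surjective_of_completeSpace H
    simpa using mk_le_of_surjective hf
  have hL : #(H →L[𝕜] H) ≤ continuum := by
    have hi : Function.Injective fun (T : H →L[𝕜] H) => T ∘ TopologicalSpace.denseSeq H :=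
      fun T S h => DFunLike.coe_injective
        ((TopologicalSpace.denseRange_denseSeq H).equalizer T.continuous S.continuous h)
    calc #(H →L[𝕜] H) ≤ #(ℕ → H) := mk_le_of_injective hi
      _ = #H ^ aleph0 := by simp
      _ ≤ continuum ^ aleph0 := power_le_power_right hH
      _ = _ := by simp
  have hC : #((ℕ → ℕ → H →L[𝕜] H) × ℝ) ≤ continuum := by
    calc #((ℕ → ℕ → H →L[𝕜] H) × ℝ) = (#(H →L[𝕜] H) ^ aleph0) ^ aleph0 * continuum := by
          simp [mk_real]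
      _ ≤ (continuum ^ aleph0) ^ aleph0 * continuum :=
          mul_le_mul_left (power_le_power_right (power_le_power_right hL)) _
      _ = _ := by simp
  let cond : (ℕ → ℕ → H →L[𝕜] H) × ℝ → Prop := fun c =>
    (∃ M, Cand c.1 M) ∧ 0 < c.2 ∧ ¬ {p | ¬ Nice c.1 c.2 p}.Countable
  obtain ⟨x, hx, h⟩ := recur2 (K := K) (X := ℕ →ᵇ H)
    (fun c => {p | p ∉ Rs ∧ (cond c → ¬ Nice c.1 c.2 p)}) (fun c => by
      by_cases hc : cond c
      · refine big (nice_open c.1 c.2) hc.2.2 fun p hp => ?_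
        by_cases h : p ∈ Rs
        · exact Or.inr h
        · exact Or.inl ⟨h, fun _ => hp⟩
      · refine big isClosed_univ K_unc fun p _ => ?_
        by_cases h : p ∈ Rs
        · exact Or.inr h
        · exact Or.inl ⟨h, fun h' => absurd h' hc⟩) hC (Adm e)
    (fun p => ⟨by simp, by simp, Or.inl rfl⟩)
    (fun c p x q y => x ≠ 0 ∧ (cond c → Defeat c.1 p x q y)) (by
      rintro c p ⟨hp, hp'⟩ y hy
      by_cases hc : cond c
      · obtain ⟨M, hM⟩ := hc.1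
        obtain ⟨x, q, h1, h2⟩ := step he hM hc.2.1 hp (hp' hc) y fun q => (hy q).1
        exact ⟨x, q, h1.1, h1.2, fun _ => h2⟩
      · obtain ⟨x, h1, h2⟩ := dummy he hp
        exact ⟨x, p, h1, h2, fun h => absurd h hc⟩)
  refine ⟨x, hx, fun hc => h (0, 0) (hc.mono ?_), fun t M δ h1 h2 h3 hc => h (t, δ) (hc.mono ?_)⟩
  · rintro p ⟨q, hq, -⟩
    exact hq
  · rintro p ⟨q, -, hq⟩
    exact ⟨q, hq ⟨⟨M, h1⟩, h2, h3⟩⟩

theorem adm_le {e : H} {p : K} {x : ℕ →ᵇ H} (h : Adm e p x) :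
    cofinite ⊓ 𝓟 {n | x n ≠ 0} ≤ FF p := le_inf inf_le_left (tendsto_iff_comap.1 h.2.1)

theorem adm_ev {e : H} {p q : K} {x : ℕ →ᵇ H} (h : Adm e p x) (hq : q ≠ p) :
    ∀ᶠ n in FF q, x n = 0 := by
  have : FF q ⊓ 𝓟 {n | x n ≠ 0} = ⊥ := by
    by_contra hc
    have : (FF q ⊓ 𝓟 {n | x n ≠ 0}).NeBot := ⟨hc⟩
    refine hq (tendsto_nhds_unique (f := pt) (l := FF q ⊓ 𝓟 {n | x n ≠ 0}) ?_ ?_)
    · exact tendsto_comap.mono_left (inf_le_left.trans inf_le_right)
    · exact h.2.1.mono_left (inf_le_inf_right _ inf_le_left)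
  rw [inf_principal_eq_bot] at this
  filter_upwards [this] with n hn
  simpa using hn

theorem adm_fin {e : H} {p q : K} {x y : ℕ →ᵇ H} (h : Adm e p x) (h' : Adm e q y) (hq : p ≠ q) :
    {n | x n ≠ 0 ∧ y n ≠ 0}.Finite := by
  have := mem_inf_principal.1 (adm_le h (adm_ev h' hq))
  refine (mem_cofinite.1 this).subset fun n hn h => hn.2 (h hn.1)

variable (𝕜) in
noncomputable def Sp (x : K → ℕ →ᵇ H) : Submodule 𝕜 (ℕ →ᵇ H) :=
  ⨅ p, Zf 𝕜 H (FF p) ⊔ Submodule.span 𝕜 {x p}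

theorem Sp_closed (x : K → ℕ →ᵇ H) : IsClosed (Sp 𝕜 x : Set (ℕ →ᵇ H)) := by
  rw [Sp, Submodule.coe_iInf]
  exact isClosed_iInter fun p => Submodule.isClosed_sup_finiteDimensional _ _ (Zf_closed 𝕜 H _)

theorem mem_Sp {x : K → ℕ →ᵇ H} {f : ℕ →ᵇ H} :
    f ∈ Sp 𝕜 x ↔ ∀ p, ∃ a : 𝕜, Tendsto (fun n => f n - a • x p n) (FF p) (𝓝 0) := by
  rw [Sp, Submodule.mem_iInf]
  refine forall_congr' fun p => ?_
  rw [Submodule.mem_sup]
  constructor
  · rintro ⟨y, hy, z, hz, rfl⟩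
    obtain ⟨a, rfl⟩ := Submodule.mem_span_singleton.1 hz
    exact ⟨a, Tendsto.congr (fun n => by simp) hy⟩
  · rintro ⟨a, h⟩
    exact ⟨f - a • x p, h, _, Submodule.mem_span_singleton.2 ⟨a, rfl⟩, by simp⟩

variable (𝕜) in
def X (x : K → ℕ →ᵇ H) : Type := Sp 𝕜 x

noncomputable instance (x : K → ℕ →ᵇ H) : NormedAddCommGroup (X 𝕜 x) :=
  inferInstanceAs (NormedAddCommGroup (Sp 𝕜 x))
noncomputable instance (x : K → ℕ →ᵇ H) : NormedSpace 𝕜 (X 𝕜 x) :=
  inferInstanceAs (NormedSpace 𝕜 (Sp 𝕜 x))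
instance [CompleteSpace H] (x : K → ℕ →ᵇ H) : CompleteSpace (X 𝕜 x) :=
  (Sp_closed x).completeSpace_coe

variable {x : K → ℕ →ᵇ H} {e : H}

noncomputable def val : X 𝕜 x →L[𝕜] (ℕ →ᵇ H) := (Sp 𝕜 x).subtypeL

theorem norm_val (f : X 𝕜 x) : ‖val f‖ = ‖f‖ := rfl
theorem val_le (f : X 𝕜 x) (n : ℕ) : ‖val f n‖ ≤ ‖f‖ := norm_coe_le_norm (val f) n
theorem X_le {f : X 𝕜 x} {c : ℝ} (h : ∀ n, ‖val f n‖ ≤ c) : ‖f‖ ≤ c :=
  (norm_le (f := val f) ((norm_nonneg _).trans (h 0))).2 h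
theorem X_ext {f g : X 𝕜 x} (h : ∀ n, val f n = val g n) : f = g :=
  Subtype.ext (BoundedContinuousFunction.ext h)
theorem val_mem (f : X 𝕜 x) (p : K) :
    ∃ a : 𝕜, Tendsto (fun n => val f n - a • x p n) (FF p) (𝓝 0) := mem_Sp.1 (Subtype.property f) p

noncomputable def mkX {A : Type} [NormedAddCommGroup A] [NormedSpace 𝕜 A] (T : A →L[𝕜] ℕ →ᵇ H)
    (h : ∀ a p, ∃ c : 𝕜, Tendsto (fun n => T a n - c • x p n) (FF p) (𝓝 0)) : A →L[𝕜] X 𝕜 x :=
  T.codRestrict (Sp 𝕜 x) fun a => mem_Sp.2 (h a)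

noncomputable def incX : c0 𝕜 H →L[𝕜] X 𝕜 x :=
  mkX inc fun a _ => ⟨0, Tendsto.congr (fun n => by simp) ((inc_tendsto a).mono_left inf_le_left)⟩

@[simp] theorem val_incX (g : c0 𝕜 H) : val (incX (x := x) g) = inc g := rfl

noncomputable def sgX (n : ℕ) : H →L[𝕜] X 𝕜 x := incX ∘L sg0 n

theorem val_sgX (n m : ℕ) (v : H) :
    val (sgX (𝕜 := 𝕜) (x := x) n v) m = if m = n then v else 0 := sg0_apply n m v

theorem val_sum (s : Finset ℕ) (y : ℕ → H) (m : ℕ) :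
    val (∑ n ∈ s, sgX (𝕜 := 𝕜) (x := x) n (y n)) m = if m ∈ s then y m else 0 := by
  rw [map_sum, BoundedContinuousFunction.sum_apply]
  simp [val_sgX]

theorem norm_sum_sg (s : Finset ℕ) (y : ℕ → H) {R : ℝ} (hy : ∀ n, ‖y n‖ ≤ R) :
    ‖∑ n ∈ s, sgX (𝕜 := 𝕜) (x := x) n (y n)‖ ≤ R := X_le fun m => by
  rw [val_sum]
  split_ifs
  · exact hy m
  · simpa using (norm_nonneg _).trans (hy 0)

variable (𝕜) in
noncomputable def xX (hx : ∀ p, Adm e p (x p)) (p : K) : X 𝕜 x :=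
  (⟨x p, mem_Sp.2 fun q => by
    by_cases h : q = p
    · subst h
      exact ⟨1, by simp⟩
    · refine ⟨0, tendsto_const_nhds.congr' ?_⟩
      filter_upwards [adm_ev (hx p) h] with m hm
      simp [hm]⟩ : Sp 𝕜 x)

@[simp] theorem val_xX (hx : ∀ p, Adm e p (x p)) (p : K) : val (xX 𝕜 hx p) = x p := rfl

theorem coef_le (he : ‖e‖ = 1) (hx : ∀ p, Adm e p (x p)) {p : K} (hp : x p ≠ 0) {g : ℕ → H}
    {a : 𝕜} {ε : ℝ} (h : Tendsto (fun n => g n - a • x p n) (FF p) (𝓝 0))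
    (h' : ∀ᶠ n in FF p, ‖g n‖ ≤ ε) : ‖a‖ ≤ ε := by
  refine le_of_forall_pos_le_add fun η hη => ?_
  obtain ⟨n, h1, h2, h3⟩ := ((((hx p).2.2.resolve_left hp).2).and_eventually
    (h'.and (NormedAddGroup.tendsto_nhds_zero.1 h η hη))).exists
  rw [h1] at h3
  have := norm_sub_le (g n) (g n - a • e)
  rw [sub_sub_cancel, norm_smul, he, mul_one] at this
  linarith

theorem coef_eq (he : ‖e‖ = 1) (hx : ∀ p, Adm e p (x p)) {p : K} (hp : x p ≠ 0) {g : ℕ → H}
    {a b : 𝕜} (h : Tendsto (fun n => g n - a • x p n) (FF p) (𝓝 0))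
    (h' : Tendsto (fun n => g n - b • x p n) (FF p) (𝓝 0)) : a = b := by
  have := h.sub h'
  rw [sub_zero] at this
  refine sub_eq_zero.1 (norm_le_zero_iff.1 (coef_le he hx hp (g := 0) (this.congr fun n => ?_)
    (by simp)))
  simp [sub_smul]

open Classical in
noncomputable def lam0 (p : K) (f : X 𝕜 x) : 𝕜 := if x p = 0 then 0 else (val_mem f p).choose

theorem lam0_spec (p : K) (f : X 𝕜 x) :
    Tendsto (fun n => val f n - lam0 p f • x p n) (FF p) (𝓝 0) := by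
  have := (val_mem f p).choose_spec
  unfold lam0
  split_ifs with h
  · simpa [h] using this
  · exact this

theorem lam0_eq (he : ‖e‖ = 1) (hx : ∀ p, Adm e p (x p)) {p : K} {f : X 𝕜 x} {a : 𝕜}
    (h0 : x p = 0 → a = 0) (h : Tendsto (fun n => val f n - a • x p n) (FF p) (𝓝 0)) :
    lam0 p f = a := by
  by_cases hp : x p = 0
  · rw [h0 hp, lam0, if_pos hp]
  · exact coef_eq he hx hp (lam0_spec p f) h

theorem lam0_le (he : ‖e‖ = 1) (hx : ∀ p, Adm e p (x p)) {p : K} {f : X 𝕜 x} {ε : ℝ}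
    (h : ∀ᶠ n in FF p, ‖val f n‖ ≤ ε) : ‖lam0 p f‖ ≤ ε := by
  by_cases hp : x p = 0
  · rw [lam0, if_pos hp, norm_zero]
    exact (norm_nonneg _).trans h.exists.choose_spec
  · exact coef_le he hx hp (lam0_spec p f) h

variable (𝕜) in
noncomputable def lam (he : ‖e‖ = 1) (hx : ∀ p, Adm e p (x p)) (p : K) : X 𝕜 x →L[𝕜] 𝕜 :=
  LinearMap.mkContinuous
    { toFun := lam0 p
      map_add' := fun f g => lam0_eq he hx (fun h => by simp [lam0, h]) (by
        have := (lam0_spec p f).add (lam0_spec p g)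
        rw [add_zero] at this
        refine this.congr fun n => ?_
        simp only [map_add, BoundedContinuousFunction.add_apply, add_smul]
        abel)
      map_smul' := fun c f => lam0_eq he hx (fun h => by simp [lam0, h]) (by
        have := (lam0_spec p f).const_smul c
        rw [smul_zero] at this
        refine this.congr fun n => ?_
        simp [smul_sub, mul_smul]) } 1
    fun f => by
      rw [one_mul]
      exact lam0_le he hx (Eventually.of_forall (val_le f))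

section
variable (he : ‖e‖ = 1) (hx : ∀ p, Adm e p (x p))

theorem lam_spec (p : K) (f : X 𝕜 x) :
    Tendsto (fun n => val f n - lam 𝕜 he hx p f • x p n) (FF p) (𝓝 0) := lam0_spec p f

theorem lam_le {p : K} {f : X 𝕜 x} {ε : ℝ} (h : ∀ᶠ n in FF p, ‖val f n‖ ≤ ε) :
    ‖lam 𝕜 he hx p f‖ ≤ ε := lam0_le he hx h

theorem lam_norm (p : K) (f : X 𝕜 x) : ‖lam 𝕜 he hx p f‖ ≤ ‖f‖ :=
  lam_le he hx (Eventually.of_forall (val_le f))

theorem lam_inc (p : K) (g : c0 𝕜 H) : lam 𝕜 he hx p (incX g) = 0 :=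
  lam0_eq he hx (fun _ => rfl) 
    (Tendsto.congr (fun n => by simp) ((inc_tendsto g).mono_left inf_le_left))

theorem lam_self {p : K} (hp : x p ≠ 0) : lam 𝕜 he hx p (xX 𝕜 hx p) = 1 :=
  lam0_eq he hx (fun h => absurd h hp) (by simp)

theorem lam_ne {p q : K} (h : q ≠ p) : lam 𝕜 he hx q (xX 𝕜 hx p) = 0 :=
  norm_le_zero_iff.1 (lam_le he hx ((adm_ev (hx p) h).mono fun n hn => by simp [hn]))

theorem approx (f : X 𝕜 x) {ε : ℝ} (hε : 0 < ε) : ∃ T : Finset K,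
    (∀ q ∉ T, ‖lam 𝕜 he hx q f‖ ≤ ε) ∧ ∃ (s : Finset ℕ) (g : ℕ → H),
      ‖f - ∑ p ∈ T, lam 𝕜 he hx p f • xX 𝕜 hx p - ∑ n ∈ s, sgX n (g n)‖ ≤ ε := by
  classical
  have h1 := fun p => NormedAddGroup.tendsto_nhds_zero.1 (lam_spec he hx p f) ε hε
  obtain ⟨T, -, hT⟩ := isCompact_univ.elim_nhds_subcover
    (fun p => {q | ∀ᶠ n in FF q, ‖val f n - lam 𝕜 he hx p f • x p n‖ < ε})
    fun p _ => mem_FF_ev (h1 p)
  have h2 : ∀ q ∉ T, ∀ᶠ n in FF q, ‖val f n‖ ≤ ε := by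
    intro q hq
    obtain ⟨p, hp, h⟩ := mem_iUnion₂.1 (hT (mem_univ q))
    filter_upwards [h, adm_ev (hx p) (q := q) fun h => hq (h ▸ hp)] with n h1 h2
    simpa [h2] using h1.le
  refine ⟨T, fun q hq => lam_le he hx (h2 q hq), ?_⟩
  obtain ⟨g, hg⟩ : ∃ g, g = f - ∑ p ∈ T, lam 𝕜 he hx p f • xX 𝕜 hx p := ⟨_, rfl⟩
  have h3 : {n | ‖val g n‖ ≤ ε} ∈ cofinite := cof fun q => by
    have h4 : ∀ᶠ n in FF q, ∀ p ∈ T, p ≠ q → x p n = 0 := by
      refine (eventually_all_finset T).2 fun p _ => ?_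
      by_cases h : p = q
      · simp [h]
      · exact (adm_ev (hx p) (Ne.symm h)).mono fun n hn _ => hn
    have h5 : ∀ n, val g n = val f n - ∑ p ∈ T, lam 𝕜 he hx p f • x p n := fun n => by
      rw [hg, map_sub, map_sum, BoundedContinuousFunction.sub_apply,
        BoundedContinuousFunction.sum_apply]
      simp
    by_cases hq : q ∈ T
    · filter_upwards [h4, h1 q] with n h6 h7
      rw [h5, Finset.sum_eq_single q (fun p hp hpq => by simp [h6 p hp hpq])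
        fun h => absurd hq h]
      exact h7.le
    · filter_upwards [h4, h2 q hq] with n h6 h7
      rw [h5, Finset.sum_eq_zero fun p hp => by simp [h6 p hp fun h => hq (h ▸ hp)], sub_zero]
      exact h7
  refine ⟨(mem_cofinite.1 h3).toFinset, val g, X_le fun n => ?_⟩
  rw [← hg, map_sub, BoundedContinuousFunction.sub_apply, val_sum]
  split_ifs with h
  · simpa using hε.le
  · simpa using h

end

theorem rows (φ : X 𝕜 x →L[𝕜] 𝕜) (y : ℕ → H) {R : ℝ} (hy : ∀ n, ‖y n‖ ≤ R) (t : Finset ℕ) :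
    ∑ n ∈ t, ‖φ (sgX n (y n))‖ ≤ ‖φ‖ * R := by
  choose c hc hc' using fun n => RCLike.exists_norm_eq_mul_self (φ (sgX n (y n)))
  have h1 : ((∑ n ∈ t, ‖φ (sgX n (y n))‖ : ℝ) : 𝕜) = φ (∑ n ∈ t, sgX n (c n • y n)) := by
    rw [map_sum]
    push_cast
    exact Finset.sum_congr rfl fun n _ => by
      rw [map_smul, map_smul, smul_eq_mul]; exact hc' n
  have h2 := φ.le_of_opNorm_le_of_le le_rfl (norm_sum_sg t (fun n => c n • y n) (R := R)
    fun n => by rw [norm_smul, hc, one_mul]; exact hy n)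
  rw [← h1, RCLike.norm_ofReal] at h2
  exact (le_abs_self _).trans h2

theorem rows_summable (φ : X 𝕜 x →L[𝕜] 𝕜) (f : ℕ →ᵇ H) :
    Summable fun n => ‖φ (sgX n (f n))‖ :=
  summable_of_sum_le (fun _ => norm_nonneg _) (rows φ f (norm_coe_le_norm f))

theorem key (hx : ∀ p, Adm e p (x p)) (φ : X 𝕜 x →L[𝕜] 𝕜) (s : Finset K) :
    ∑ p ∈ s, ‖φ (xX 𝕜 hx p) - ∑' n, φ (sgX n (x p n))‖ ≤ ‖φ‖ := by
  classical
  obtain ⟨ψ, hψ⟩ : ∃ ψ : K → 𝕜, ψ = fun p => φ (xX 𝕜 hx p) - ∑' n, φ (sgX n (x p n)) := ⟨_, rfl⟩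
  choose c hc hc' using fun p => RCLike.exists_norm_eq_mul_self (ψ p)
  have h1 : Tendsto (fun t : Finset ℕ => φ (∑ p ∈ s, c p •
      (xX 𝕜 hx p - ∑ n ∈ t, sgX n (x p n)))) atTop (𝓝 ((∑ p ∈ s, ‖ψ p‖ : ℝ) : 𝕜)) := by
    simp only [map_sum, map_smul, map_sub, smul_eq_mul]
    push_cast
    refine tendsto_finsetSum _ fun p _ => ?_
    rw [show algebraMap ℝ 𝕜 ‖ψ p‖ = _ from hc' p]
    refine Tendsto.const_mul _ ?_
    rw [hψ]
    exact tendsto_const_nhds.sub (rows_summable φ (x p)).of_norm.hasSum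
  have hfin : (⋃ p ∈ s, ⋃ q ∈ s, {n | p ≠ q ∧ x p n ≠ 0 ∧ x q n ≠ 0}).Finite := by
    refine s.finite_toSet.biUnion fun p _ => s.finite_toSet.biUnion fun q _ => ?_
    by_cases h : p = q
    · simp [h]
    · exact (adm_fin (hx p) (hx q) h).subset fun n hn => hn.2
  have h2 := le_of_tendsto h1.norm (b := ‖φ‖ * 1) (by
    filter_upwards [eventually_ge_atTop hfin.toFinset] with t ht
    refine φ.le_of_opNorm_le_of_le le_rfl (X_le fun m => ?_)
    rw [map_sum, BoundedContinuousFunction.sum_apply]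
    simp only [map_smul, map_sub, coe_smul, coe_sub, Pi.sub_apply, val_sum, val_xX]
    by_cases hm : m ∈ t
    · simp [hm]
    simp only [hm, if_false, sub_zero]
    by_cases h : ∃ p ∈ s, x p m ≠ 0
    · obtain ⟨p, hp, hpm⟩ := h
      rw [Finset.sum_eq_single p]
      · rw [norm_smul, hc, one_mul]
        exact (norm_coe_le_norm _ m).trans (hx p).1
      · intro q hq hqp
        have : x q m = 0 := by
          by_contra hc
          refine hm (ht ?_)
          simp only [Finite.mem_toFinset, mem_iUnion]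
          exact ⟨q, hq, p, hp, hqp, hc, hpm⟩
        simp [this]
      · exact fun h => absurd hp h
    · push Not at h
      rw [Finset.sum_eq_zero fun p hp => by simp [h p hp]]
      simp)
  rw [RCLike.norm_ofReal, mul_one, hψ] at h2
  exact (le_abs_self _).trans h2

noncomputable def tP (P : X 𝕜 x →L[𝕜] X 𝕜 x) (m n : ℕ) : H →L[𝕜] H :=
  evalCLM 𝕜 m ∘L val ∘L P ∘L sgX n

theorem tP_sum (P : X 𝕜 x →L[𝕜] X 𝕜 x) (m : ℕ) (s : Finset ℕ) (f : ℕ → H) :
    ∑ n ∈ s, tP P m n (f n) = val (P (∑ n ∈ s, sgX n (f n))) m := by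
  rw [map_sum, map_sum, BoundedContinuousFunction.sum_apply]
  rfl

theorem tP_cand (P : X 𝕜 x →L[𝕜] X 𝕜 x) : Cand (tP P) ‖P‖ := fun m s f hf => by
  rw [tP_sum]
  simpa using (val_le _ m).trans (P.le_of_opNorm_le_of_le le_rfl (norm_sum_sg s f hf))

theorem cnt [CompleteSpace H] [TopologicalSpace.SeparableSpace H] (hx : ∀ p, Adm e p (x p))
    (P : X 𝕜 x →L[𝕜] X 𝕜 x) :
    {p | ∃ m, val (P (xX 𝕜 hx p)) m ≠ ∑' n, tP P m n (x p n)}.Countable := by
  have h1 := fun φ : X 𝕜 x →L[𝕜] 𝕜 =>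
    (Summable.of_norm (summable_of_sum_le (fun _ => norm_nonneg _) (key hx φ))).countable_support
  refine (countable_iUnion fun m => countable_iUnion fun i =>
    h1 (innerSL 𝕜 (TopologicalSpace.denseSeq H i) ∘L evalCLM 𝕜 m ∘L val ∘L P)).mono ?_
  rintro p ⟨m, hm⟩
  by_contra hc
  simp only [mem_iUnion, Function.mem_support, not_exists, not_not, sub_eq_zero] at hc
  refine hm ((TopologicalSpace.denseRange_denseSeq H).eq_of_inner_right (𝕜 := 𝕜) fun i => ?_)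
  have := (innerSL 𝕜 (TopologicalSpace.denseSeq H i)).map_tsum
    ((tP_cand P).summable m fun n => (norm_coe_le_norm _ n).trans (hx p).1)
  exact (hc m i).trans this.symm

end Pool.Agent.H.MP_5801e7_an
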