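import Mathlib
import Pool.Agent.H.MP_5801e7_an.D

set_option autoImplicit false

namespace Pool.Agent.H.MP_5801e7_an

open Set Filter Topology BoundedContinuousFunction

theorem dense_compl {C : Set I} (h : C.Countable) : Dense Cᶜ := by
  have := dense_biInter_of_isOpen (f := fun c : I => ({c}ᶜ : Set I))
    (fun _ _ => isOpen_compl_singleton) h fun c _ => dense_compl_singleton c
  refine this.mono fun a ha hc => ?_
  exact mem_iInter₂.1 ha a hc rfl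

theorem dich {U V : Set K} (hU : IsOpen U) (hV : IsOpen V) (hd : Disjoint U V)
    (hc : (U ∪ V)ᶜ.Countable) : U = ∅ ∨ V = ∅ := by
  have h1 : ∀ W : Set K, IsOpen W → W.Nonempty → ∃ a ∈ W, a.2 ∉ Prod.snd '' (U ∪ V)ᶜ := by
    rintro W hW hne
    obtain ⟨_, h1, a, ha, rfl⟩ := (dense_compl (hc.image Prod.snd)).exists_mem_open
      (isOpenMap_snd W hW) (hne.image _)
    exact ⟨a, ha, h1⟩
  have hor : ∀ b ∉ Prod.snd '' (U ∪ V)ᶜ,
      range (fun a : I => (a, b)) ⊆ U ∨ range (fun a : I => (a, b)) ⊆ V := fun b hb =>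
    (isPreconnected_range (by fun_prop)).subset_or_subset hU hV hd (by
      rintro _ ⟨a, rfl⟩
      by_contra h
      exact hb ⟨_, h, rfl⟩)
  obtain ⟨a0, ha0⟩ := (dense_compl (hc.image Prod.fst)).nonempty
  have ver : range (fun b : I => (a0, b)) ⊆ U ∨ range (fun b : I => (a0, b)) ⊆ V :=
    (isPreconnected_range (by fun_prop)).subset_or_subset hU hV hd (by
      rintro _ ⟨a, rfl⟩
      by_contra h
      exact ha0 ⟨_, h, rfl⟩)
  by_contra hcon
  push Not at hcon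
  obtain ⟨u, hu, hu'⟩ := h1 U hU hcon.1
  obtain ⟨v, hv, hv'⟩ := h1 V hV hcon.2
  have h2 := (hor _ hu').resolve_right fun h => disjoint_left.1 hd hu (h ⟨u.1, rfl⟩)
  have h3 := (hor _ hv').resolve_left fun h => disjoint_left.1 hd (h ⟨v.1, rfl⟩) hv
  rcases ver with h | h
  · exact disjoint_left.1 hd (h ⟨v.2, rfl⟩) (h3 ⟨a0, rfl⟩)
  · exact disjoint_left.1 hd (h2 ⟨a0, rfl⟩) (h ⟨u.2, rfl⟩)

variable {𝕜 : Type} [RCLike 𝕜] {H : Type} [NormedAddCommGroup H] [InnerProductSpace 𝕜 H]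
  {x : K → ℕ →ᵇ H} {e : H}

def Sm (P : X 𝕜 x →L[𝕜] X 𝕜 x) (η : ℝ) (U : Set ℕ) : Prop :=
  ∀ (s : Finset ℕ) (f : ℕ → H), ↑s ⊆ U → (∀ n, ‖f n‖ ≤ 1) → ‖P (∑ n ∈ s, sgX n (f n))‖ ≤ η

def Small (P : X 𝕜 x →L[𝕜] X 𝕜 x) (η : ℝ) : Set K := {p | ∃ U ∈ FF p, Sm P η U}

theorem small_open (P : X 𝕜 x →L[𝕜] X 𝕜 x) (η : ℝ) : IsOpen (Small P η) := by
  rw [isOpen_iff_mem_nhds]
  rintro p ⟨U, hU, h⟩
  filter_upwards [mem_FF_ev hU] with q hq
  exact ⟨U, hq, h⟩

theorem small_mono (P : X 𝕜 x →L[𝕜] X 𝕜 x) {η η' : ℝ} (h : η ≤ η') : Small P η ⊆ Small P η' :=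
  fun _ ⟨U, hU, h'⟩ => ⟨U, hU, fun s f a b => (h' s f a b).trans h⟩

theorem small_disj (he : ‖e‖ = 1) {P Q : X 𝕜 x →L[𝕜] X 𝕜 x} (h : ∀ f, P f + Q f = f) :
    Disjoint (Small P (1 / 4)) (Small Q (1 / 4)) := by
  rw [disjoint_left]
  rintro p ⟨U, hU, h1⟩ ⟨V, hV, h2⟩
  obtain ⟨n, hn, hn'⟩ := Filter.nonempty_of_mem (inter_mem hU hV)
  have h3 := h1 {n} (fun _ => e) (by simpa) fun _ => he.le
  have h4 := h2 {n} (fun _ => e) (by simpa) fun _ => he.le
  rw [Finset.sum_singleton] at h3 h4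
  have h5 := val_le (sgX (𝕜 := 𝕜) (x := x) n e) n
  rw [val_sgX, if_pos rfl, he, ← h (sgX n e)] at h5
  linarith [norm_add_le (P (sgX n e)) (Q (sgX n e))]

theorem nice_small {P Q : X 𝕜 x →L[𝕜] X 𝕜 x} (h : ∀ f, P f + Q f = f) (hP : ∀ f, P (P f) = P f)
    (hQ : ∀ f, Q (P f) = 0) {η : ℝ} (hη : 0 < η) {p : K}
    (hn : Nice (tP P) (η / (2 * (‖P‖ + ‖Q‖ + 1))) p) : p ∈ Small P η ∪ Small Q η := by
  obtain ⟨l, U, hU, h1⟩ := hn
  obtain ⟨δ, hδ⟩ : ∃ δ, δ = η / (2 * (‖P‖ + ‖Q‖ + 1)) := ⟨_, rfl⟩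
  have hδ0 : 0 < δ := by rw [hδ]; positivity
  have hδ1 : δ * (2 * (‖P‖ + ‖Q‖ + 1)) = η := by rw [hδ]; field_simp
  have h2 : ∀ (s : Finset ℕ) (f : ℕ → H), ↑s ⊆ U → (∀ n, ‖f n‖ ≤ 1) →
      ‖P (∑ n ∈ s, sgX n (f n)) - l • ∑ n ∈ s, sgX n (f n)‖ ≤ δ := fun s f hs hf =>
    X_le fun m => by
      have := h1 s f hs hf m
      rw [tP_sum, ← val_sum (𝕜 := 𝕜) (x := x), ← hδ] at this
      rw [map_sub, map_smul]
      exact this
  by_cases hl : 1 / 2 ≤ ‖l‖
  · refine Or.inr ⟨U, hU, fun s f hs hf => ?_⟩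
    have := Q.le_of_opNorm_le_of_le le_rfl (h2 s f hs hf)
    rw [map_sub, hQ, map_smul, zero_sub, norm_neg, norm_smul] at this
    nlinarith [norm_nonneg (Q (∑ n ∈ s, sgX n (f n))), norm_nonneg P, norm_nonneg Q]
  · refine Or.inl ⟨U, hU, fun s f hs hf => ?_⟩
    have := P.le_of_opNorm_le_of_le le_rfl (h2 s f hs hf)
    rw [map_sub, hP, map_smul] at this
    have h3 := norm_sub_norm_le (P (∑ n ∈ s, sgX n (f n))) (l • P (∑ n ∈ s, sgX n (f n)))
    rw [norm_smul] at h3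
    nlinarith [norm_nonneg (P (∑ n ∈ s, sgX n (f n))), norm_nonneg P, norm_nonneg Q]

theorem sm_le {P : X 𝕜 x →L[𝕜] X 𝕜 x} {η : ℝ} {U : Set ℕ} (h : Sm P η U) (g : c0 𝕜 H)
    (hg : ‖g‖ ≤ 1) (hU : ∀ n, inc g n ≠ 0 → n ∈ U) : ‖P (incX g)‖ ≤ η := by
  refine le_of_forall_pos_le_add fun ε hε => ?_
  have hε' : 0 < ε / (‖P‖ + 1) := by positivity
  have h1 := eventually_cofinite.1 (NormedAddGroup.tendsto_nhds_zero.1 (inc_tendsto g) _ hε')
  have h2 := h h1.toFinset (inc g) (fun n hn => hU n fun h0 => by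
    simp [h0] at hn
    linarith) fun n => (norm_ev n g).trans hg
  have h3 : ‖incX (x := x) g - ∑ n ∈ h1.toFinset, sgX n (inc g n)‖ ≤ ε / (‖P‖ + 1) :=
    X_le fun m => by
      rw [map_sub, BoundedContinuousFunction.sub_apply, val_sum, val_incX]
      split_ifs with hm
      · simpa using hε'.le
      · simpa using (not_not.1 (mt h1.mem_toFinset.2 hm)).le
  have h4 := P.le_of_opNorm_le_of_le le_rfl h3
  have h5 : ‖P‖ * (ε / (‖P‖ + 1)) ≤ ε := by
    rw [← mul_div_assoc, div_le_iff₀ (by positivity)]; nlinarith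
  rw [map_sub] at h4
  linarith [norm_sub_norm_le (P (incX g)) (P (∑ n ∈ h1.toFinset, sgX n (inc g n)))]

variable {Y Z : Type} [NormedAddCommGroup Y] [NormedSpace 𝕜 Y] [NormedAddCommGroup Z]
  [NormedSpace 𝕜 Z] [CompleteSpace H]

theorem facY (he : ‖e‖ = 1) (hx : ∀ p, Adm e p (x p)) (P : X 𝕜 x →L[𝕜] X 𝕜 x)
    (i : Y →L[𝕜] X 𝕜 x) (π : X 𝕜 x →L[𝕜] Y) (h : ∀ f, i (π f) = f - P f)
    (hs : (Small P (1 / 2)).Nonempty) : Fac 𝕜 (c0 𝕜 H) Y := by
  obtain ⟨r, U, hU, hS⟩ := (TopologicalSpace.denseRange_denseSeq K).exists_mem_open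
    (small_open P _) hs
  have hr0 : x (TopologicalSpace.denseSeq K r) = 0 :=
    (hx _).2.2.resolve_right fun h => h.1 ⟨r, rfl⟩
  obtain ⟨n, hn, hl⟩ := exists_seq (TopologicalSpace.denseSeq K r)
  have hF := to_FF hn.nat_tendsto_atTop hl
  obtain ⟨k0, hk0⟩ := eventually_atTop.1 (hF hU)
  have hι : Function.Injective fun k => n (k + k0) := hn.comp (add_left_injective k0)
  let j : c0 𝕜 H →L[𝕜] X 𝕜 x := incX ∘L ext _ hι
  let ρ : X 𝕜 x →L[𝕜] c0 𝕜 H := mk0 (fun k => evalCLM 𝕜 (n (k + k0)) ∘L val) 1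
    (fun k f => by simpa using val_le f _) fun f => by
      have := ((lam_spec he hx _ f).comp hF).comp (tendsto_add_atTop_nat k0)
      rw [Nat.cofinite_eq_atTop]
      exact this.congr fun k => by simp [hr0]
  have hρ : ∀ g, ρ (j g) = g := fun g => c0_ext fun k => ext_apply _ hι g k
  have hn1 : ‖ρ ∘L P ∘L j‖ ≤ 1 / 2 := by
    refine ContinuousLinearMap.opNorm_le_of_unit_norm (by norm_num) fun g hg => ?_
    have h1 : ‖P (j g)‖ ≤ 1 / 2 := by
      refine sm_le hS (ext _ hι g) ?_ fun m hm => ?_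
      · rw [← norm_inc]
        refine (norm_le zero_le_one).2 fun m => ?_
        by_cases h : ∃ k, n (k + k0) = m
        · obtain ⟨k, rfl⟩ := h
          rw [ext_apply _ hι]; exact (norm_ev k g).trans hg.le
        · rw [ext_apply' _ hι _ _ h]; simp
      · obtain ⟨k, rfl⟩ : ∃ k, n (k + k0) = m := by
          by_contra hc
          exact hm (ext_apply' _ hι _ _ hc)
        exact hk0 _ (Nat.le_add_left _ _)
    rw [← norm_inc]
    exact (norm_le (by norm_num)).2 fun k => (val_le _ _).trans h1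
  let u := Units.oneSub (ρ ∘L P ∘L j) (hn1.trans_lt (by norm_num))
  refine ⟨π ∘L j, (↑u⁻¹ : c0 𝕜 H →L[𝕜] c0 𝕜 H) ∘L ρ ∘L i, fun g => ?_⟩
  have h1 : ρ (i (π (j g))) = (u : c0 𝕜 H →L[𝕜] c0 𝕜 H) g := by
    rw [h, map_sub, hρ]; rfl
  have h2 := congrArg (fun T : c0 𝕜 H →L[𝕜] c0 𝕜 H => T g) u.inv_mul
  simp only [ContinuousLinearMap.comp_apply, h1]
  exact h2

theorem supp_lam (he : ‖e‖ = 1) (hx : ∀ p, Adm e p (x p)) (f : X 𝕜 x) :
    {p | lam 𝕜 he hx p f ≠ 0}.Countable := by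
  choose T hT _ using fun k : ℕ => approx he hx f (Nat.one_div_pos_of_nat (n := k))
  refine (countable_iUnion fun k => (T k).countable_toSet).mono fun p hp => ?_
  obtain ⟨k, hk⟩ := exists_nat_one_div_lt (norm_pos_iff.2 hp)
  by_contra hc
  exact absurd (hT k p fun h => hc (mem_iUnion.2 ⟨k, h⟩)) (not_le.2 hk)

variable [TopologicalSpace.SeparableSpace H]

theorem sep (he : ‖e‖ = 1) (hx : ∀ p, Adm e p (x p)) (P : X 𝕜 x →L[𝕜] X 𝕜 x)
    (hs : ∀ η > 0, (Small P η)ᶜ.Countable) :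
    ∃ Γ : Set K, Γ.Countable ∧ ∀ p ∉ Γ, ∀ f, lam 𝕜 he hx p (P f) = 0 := by
  classical
  have h0 := (cnt hx P).union (countable_iUnion fun k : ℕ => hs _ (Nat.one_div_pos_of_nat (n := k)))
  refine ⟨_, (countable_iUnion fun n => countable_iUnion fun i =>
    supp_lam he hx (P (sgX n (TopologicalSpace.denseSeq H i)))).union
      (h0.biUnion fun q _ => supp_lam he hx (P (xX 𝕜 hx q))), fun p hp f => ?_⟩
  simp only [mem_union, mem_iUnion, not_or, not_exists, mem_ofPred_eq, not_not] at hp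
  have h1 : ∀ n v, lam 𝕜 he hx p (P (sgX n v)) = 0 := fun n v =>
    congrFun ((TopologicalSpace.denseRange_denseSeq H).equalizer
      (lam 𝕜 he hx p ∘L P ∘L sgX n).continuous continuous_const (funext (hp.1 n))) v
  have h2 : ∀ q, lam 𝕜 he hx p (P (xX 𝕜 hx q)) = 0 := by
    intro q
    by_contra hq
    have h3 := mt (hp.2 q) hq
    push Not at h3
    obtain ⟨k, hk⟩ := exists_nat_one_div_lt (norm_pos_iff.2 hq)
    obtain ⟨U, hU, hS⟩ := not_not.1 (h3.2 k)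
    have h4 := mem_cofinite.1 (mem_inf_principal.1 (adm_le (hx q) hU))
    have hx1 : ∀ n, ‖x q n‖ ≤ 1 := fun n => (norm_coe_le_norm _ n).trans (hx q).1
    have h5 : ‖P (xX 𝕜 hx q) - P (∑ n ∈ h4.toFinset, sgX n (x q n))‖ ≤ 1 / ((k : ℝ) + 1) := by
      refine X_le fun m => ?_
      rw [map_sub, BoundedContinuousFunction.sub_apply, h3.1 m, ← tP_sum]
      refine le_of_tendsto (Tendsto.sub_const ((tP_cand P).summable m hx1).hasSum _).norm ?_
      filter_upwards [eventually_ge_atTop h4.toFinset] with s hs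
      rw [← Finset.sum_sdiff hs, add_sub_cancel_right,
        ← Finset.sum_filter_of_ne (p := fun n => n ∈ U), tP_sum]
      · exact (val_le _ _).trans (hS _ _ (fun n hn => (Finset.mem_filter.1 hn).2) hx1)
      · intro n hn h
        have := (Finset.mem_sdiff.1 hn).2
        rw [Finite.mem_toFinset] at this
        exact not_not.1 this fun h' => h (by rw [h', map_zero])
    have h6 := (lam_norm he hx p _).trans h5
    rw [map_sub, map_sum, map_sum, Finset.sum_eq_zero fun n _ => h1 n _, sub_zero] at h6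
    exact absurd hk (not_lt.2 h6)
  refine norm_le_zero_iff.1 (le_of_forall_pos_le_add fun ε hε => ?_)
  obtain ⟨T, -, s, g, h⟩ := approx he hx f (ε := ε / (‖P‖ + 1)) (by positivity)
  have h3 := (lam_norm he hx p _).trans (P.le_of_opNorm_le_of_le le_rfl h)
  simp only [map_sub, map_sum, map_smul, h1, h2, smul_zero, Finset.sum_const_zero, sub_zero] at h3
  have h5 : ‖P‖ * (ε / (‖P‖ + 1)) ≤ ε := by
    rw [← mul_div_assoc, div_le_iff₀ (by positivity)]; nlinarith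
  linarith

omit [CompleteSpace H] [TopologicalSpace.SeparableSpace H] in
theorem facZ (he : ‖e‖ = 1) (hx : ∀ p, Adm e p (x p)) (i : Z →L[𝕜] X 𝕜 x) (π : X 𝕜 x →L[𝕜] Z)
    (h : ∀ z, π (i z) = z) {Γ : Set K} (hΓ : Γ.Countable)
    (h0 : ∀ p ∉ Γ, ∀ z, lam 𝕜 he hx p (i z) = 0) : Fac 𝕜 Z (c0 𝕜 H × c0 𝕜 H) := by
  classical
  obtain ⟨γ, hγ, hγ'⟩ : ∃ γ : ℕ → K, Function.Injective γ ∧ Γ ⊆ range γ := by
    have : Infinite K := infinite_univ_iff.1 fun h => K_unc h.countable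
    obtain ⟨D⟩ := countable_infinite_iff_nonempty_denumerable.1
      ⟨hΓ.union (countable_range (Infinite.natEmbedding K)),
        (infinite_range_of_injective (Infinite.natEmbedding K).injective).mono subset_union_right⟩
    refine ⟨fun n => ((Denumerable.eqv _).symm n : ↥(Γ ∪ range (Infinite.natEmbedding K))),
      Subtype.val_injective.comp (Equiv.injective _), fun p hp =>
        ⟨Denumerable.eqv ↥(Γ ∪ range (Infinite.natEmbedding K)) ⟨p, Or.inl hp⟩, by simp⟩⟩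
  obtain ⟨idx, hidx⟩ : ∃ idx : ℕ → ℕ, ∀ n k, x (γ k) n ≠ 0 → idx n ≤ k ∧ x (γ (idx n)) n ≠ 0 := by
    refine ⟨fun n => if h : ∃ k, x (γ k) n ≠ 0 then Nat.find h else 0, fun n k hk => ?_⟩
    have h : ∃ k, x (γ k) n ≠ 0 := ⟨k, hk⟩
    simp only [dif_pos h]
    exact ⟨Nat.find_min' h hk, Nat.find_spec h⟩
  have hx1 : ∀ q n, ‖x q n‖ ≤ 1 := fun q n => (norm_coe_le_norm _ n).trans (hx q).1
  have hbd : ∀ n (v : H), ‖innerSL 𝕜 e v • x (γ (idx n)) n‖ ≤ ‖v‖ := fun n v => by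
    rw [norm_smul]
    refine (mul_le_of_le_one_right (norm_nonneg _) (hx1 _ _)).trans ?_
    simpa [he] using norm_inner_le_norm (𝕜 := 𝕜) e v
  let b : c0 𝕜 H →L[𝕜] ℕ →ᵇ H :=
    mkL (fun n => (innerSL 𝕜 e ∘L ev (idx n)).smulRight (x (γ (idx n)) n)) 1 fun n g => by
      rw [one_mul]; exact (hbd n _).trans (norm_ev _ g)
  have hb : ∀ (g : c0 𝕜 H) (p : K) (c : 𝕜), (∀ k, γ k = p → c = innerSL 𝕜 e (inc g k)) →
      (p ∉ range γ → c = 0) → Tendsto (fun n => b g n - c • x p n) (FF p) (𝓝 0) := by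
    intro g p c h1 h2
    rw [NormedAddGroup.tendsto_nhds_zero]
    intro ε hε
    have h3 := NormedAddGroup.tendsto_nhds_zero.1 (inc_tendsto g) ε hε
    rw [Nat.cofinite_eq_atTop] at h3
    obtain ⟨N, hN⟩ := eventually_atTop.1 h3
    obtain ⟨N', hN1, hN2⟩ : ∃ N', N ≤ N' ∧ ∀ k, γ k = p → k < N' := by
      by_cases hp : p ∈ range γ
      · obtain ⟨k, rfl⟩ := hp
        exact ⟨N + k + 1, by omega, fun j hj => by have := hγ hj; omega⟩
      · exact ⟨N, le_rfl, fun k hk => absurd ⟨k, hk⟩ hp⟩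
    have h4 : ∀ᶠ n in FF p, ∀ j ∈ Finset.range N', γ j ≠ p → x (γ j) n = 0 := by
      refine (eventually_all_finset _).2 fun j _ => ?_
      by_cases h : γ j = p
      · simp [h]
      · exact (adm_ev (hx _) (Ne.symm h)).mono fun n hn _ => hn
    filter_upwards [h4] with n hn
    have hbn : b g n = innerSL 𝕜 e (inc g (idx n)) • x (γ (idx n)) n := rfl
    by_cases h : γ (idx n) = p
    · rw [hbn, h1 _ h, h, sub_self, norm_zero]; exact hε
    have h5 : c • x p n = 0 := by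
      by_cases hp : p ∈ range γ
      · obtain ⟨k, rfl⟩ := hp
        by_contra hc
        obtain ⟨h6, h7⟩ := hidx n k fun h' => hc (by rw [h', smul_zero])
        exact h7 (hn _ (Finset.mem_range.2 (h6.trans_lt (hN2 k rfl))) h)
      · rw [h2 hp, zero_smul]
    rw [h5, sub_zero, hbn]
    by_cases h6 : idx n < N'
    · rw [hn _ (Finset.mem_range.2 h6) h, smul_zero, norm_zero]; exact hε
    · exact (hbd n _).trans_lt (hN _ (by omega))
  let bX : c0 𝕜 H →L[𝕜] X 𝕜 x := mkX b fun g p =>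
    ⟨Function.extend γ (fun k => innerSL 𝕜 e (inc g k)) 0 p, hb g p _
      (fun k hk => by rw [← hk, hγ.extend_apply]) fun hp => Function.extend_apply' _ _ _ hp⟩
  let a : X 𝕜 x →L[𝕜] c0 𝕜 H := mk0 (fun k => (lam 𝕜 he hx (γ k)).smulRight e) 1
    (fun k f => by simpa [norm_smul, he] using lam_norm he hx _ f) fun f => by
      rw [NormedAddGroup.tendsto_nhds_zero]
      intro ε hε
      obtain ⟨T, hT, -⟩ := approx he hx f (half_pos hε)
      filter_upwards [hγ.tendsto_cofinite T.finite_toSet.compl_mem_cofinite] with k hk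
      simpa [norm_smul, he] using (hT _ hk).trans_lt (half_lt_self hε)
  let D : Z →L[𝕜] X 𝕜 x := i - bX ∘L a ∘L i
  let a1 : Z →L[𝕜] c0 𝕜 H := mk0 (fun n => evalCLM 𝕜 n ∘L val ∘L D) ‖D‖
    (fun n z => (val_le _ n).trans (D.le_opNorm z)) fun z U hU => cof fun q => by
      have := (lam_spec he hx q (i z)).sub (hb (a (i z)) q (lam 𝕜 he hx q (i z))
        (fun k hk => by
          have : inc (a (i z)) k = lam 𝕜 he hx (γ k) (i z) • e := rfl
          simp [this, he, hk]) fun hq => h0 q (fun h => hq (hγ' h)) z)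
      rw [sub_zero] at this
      exact (this.congr fun n => sub_sub_sub_cancel_right _ _ _) hU
  refine ⟨a1.prod (a ∘L i), π ∘L incX.coprod bX, fun z => ?_⟩
  have h1 : incX (a1 z) = i z - bX (a (i z)) := X_ext fun n => rfl
  simp [h1, h]

noncomputable def PZ (θ : (Y × Z) ≃L[𝕜] X 𝕜 x) : X 𝕜 x →L[𝕜] X 𝕜 x :=
  (θ : (Y × Z) →L[𝕜] X 𝕜 x) ∘L ContinuousLinearMap.inr 𝕜 Y Z ∘L ContinuousLinearMap.snd 𝕜 Y Z ∘L
    (θ.symm : X 𝕜 x →L[𝕜] Y × Z)

theorem side (he : ‖e‖ = 1) (hx : ∀ p, Adm e p (x p)) (θ : (Y × Z) ≃L[𝕜] X 𝕜 x)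
    (hs : ∀ η > 0, (Small (PZ θ) η)ᶜ.Countable) : Nonempty (Y ≃L[𝕜] X 𝕜 x) := by
  obtain ⟨Γ, hΓ, h0⟩ := sep he hx _ hs
  have hZ := facZ he hx ((θ : (Y × Z) →L[𝕜] X 𝕜 x) ∘L ContinuousLinearMap.inr 𝕜 Y Z)
    (ContinuousLinearMap.snd 𝕜 Y Z ∘L (θ.symm : X 𝕜 x →L[𝕜] Y × Z)) (fun z => by simp) hΓ
    fun p hp z => by simpa [PZ] using h0 p hp (θ (0, z))
  have hY := facY he hx (PZ θ) ((θ : (Y × Z) →L[𝕜] X 𝕜 x) ∘L ContinuousLinearMap.inl 𝕜 Y Z)
    (ContinuousLinearMap.fst 𝕜 Y Z ∘L (θ.symm : X 𝕜 x →L[𝕜] Y × Z)) (fun f => by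
      rw [eq_sub_iff_add_eq]
      simp [PZ, ← map_add]) (by
      by_contra hc
      have := hs (1 / 2) (by norm_num)
      rw [not_nonempty_iff_eq_empty.1 hc, compl_empty] at this
      exact K_unc this)
  obtain ⟨σ⟩ := swindle (((hZ.trans (fac_prod.trans fac_curry)).c0.trans fac_curry).trans hY)
  exact ⟨σ.symm.trans θ⟩

theorem primary (he : ‖e‖ = 1) (hx : ∀ p, Adm e p (x p))
    (hf : ∀ (t : ℕ → ℕ → H →L[𝕜] H) M δ, Cand t M → 0 < δ → ¬ {p | ¬ Nice t δ p}.Countable →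
      ¬ {p | ∃ q, Defeat t p (x p) q (x q)}.Countable) (θ : (Y × Z) ≃L[𝕜] X 𝕜 x) :
    Nonempty (Y ≃L[𝕜] X 𝕜 x) ∨ Nonempty (Z ≃L[𝕜] X 𝕜 x) := by
  let θ' := (ContinuousLinearEquiv.prodComm 𝕜 Z Y).trans θ
  have h1 : ∀ f, PZ θ f + PZ θ' f = f := fun f => by simp [PZ, θ', ← map_add]
  have h2 : ∀ η > 0, (Small (PZ θ) η ∪ Small (PZ θ') η)ᶜ.Countable := by
    intro η hη
    have h3 : {p | ¬ Nice (tP (PZ θ)) (η / (2 * (‖PZ θ‖ + ‖PZ θ'‖ + 1))) p}.Countable := by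
      by_contra hc
      refine hf _ _ _ (tP_cand _) (by positivity) hc ((cnt hx (PZ θ)).mono ?_)
      rintro p ⟨q, hq⟩
      by_contra h
      simp only [mem_ofPred_eq, not_exists, not_not] at h
      obtain ⟨a, ha⟩ := val_mem (PZ θ (xX 𝕜 hx p)) p
      obtain ⟨b, hb⟩ := val_mem (PZ θ (xX 𝕜 hx p)) q
      simp only [h] at ha hb
      exact hq ⟨a, b, ha, hb⟩
    exact h3.mono fun p hp hn => hp (nice_small h1 (fun f => by simp [PZ])
      (fun f => by simp [PZ, θ']) hη hn)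
  rcases dich (small_open _ _) (small_open _ _) (small_disj he h1) (h2 _ (by norm_num)) with h | h
  · refine Or.inr (side he hx θ' fun η hη => (h2 _ (lt_min hη (by norm_num : (0 : ℝ) < 1 / 4))).mono
      (compl_subset_compl.2 (union_subset ?_ (small_mono _ (min_le_left _ _)))))
    exact (small_mono _ (min_le_right _ _)).trans (h ▸ empty_subset _)
  · refine Or.inl (side he hx θ fun η hη => (h2 _ (lt_min hη (by norm_num : (0 : ℝ) < 1 / 4))).mono
      (compl_subset_compl.2 (union_subset (small_mono _ (min_le_left _ _)) ?_)))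
    exact (small_mono _ (min_le_right _ _)).trans (h ▸ empty_subset _)

end Pool.Agent.H.MP_5801e7_an
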