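import Mathlib
import Pool.Agent.H.MP_5801e7_an.E

set_option autoImplicit false

namespace Pool.Agent.H.MP_5801e7_an

open Set Filter Topology BoundedContinuousFunction

variable {𝕜 : Type} [RCLike 𝕜]

theorem nsq {δ C : ℝ} (hδ : 0 < δ) (h : ∀ n : ℕ, n * δ ≤ C * √n) : False := by
  obtain ⟨n, hn⟩ := exists_nat_gt ((C / δ) ^ 2)
  have h0 : (0 : ℝ) < n := lt_of_le_of_lt (sq_nonneg _) hn
  have h1 := Real.lt_sqrt_of_sq_lt hn
  have h2 := Real.mul_self_sqrt h0.le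
  have h3 := Real.sqrt_pos.2 h0
  have h4 := h n
  rw [div_lt_iff₀ hδ] at h1
  nlinarith

theorem schur (β : ℕ → K → 𝕜) (hs : ∀ k, Summable fun p => ‖β k p‖) {c C : ℝ} (hc : 0 < c)
    (h1 : ∀ k, c ≤ ∑' p, ‖β k p‖) (h2 : ∀ (s : Finset ℕ) (a : ℕ → 𝕜), (∀ k, ‖a k‖ ≤ 1) →
      ∑' p, ‖∑ k ∈ s, a k * β k p‖ ≤ C * √s.card) : False := by
  classical
  have hss : ∀ (s : Finset ℕ) (a : ℕ → 𝕜), Summable fun p => ‖∑ k ∈ s, a k * β k p‖ := fun s a =>
    (summable_sum fun k _ => (hs k).of_norm.mul_left (a k)).norm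
  have h3 : ∀ p, Tendsto (fun k => ‖β k p‖) atTop (𝓝 0) := by
    intro p
    rw [← tendsto_zero_iff_norm_tendsto_zero, NormedAddGroup.tendsto_nhds_zero]
    intro δ hδ
    rw [← Nat.cofinite_eq_atTop, eventually_cofinite]
    by_contra hinf
    refine nsq hδ (C := C) fun n => ?_
    obtain ⟨s, hs', rfl⟩ := Set.Infinite.exists_subset_card_eq hinf n
    choose a ha ha' using fun k => RCLike.exists_norm_eq_mul_self (β k p)
    refine le_trans ?_ (((hss s a).le_tsum p fun _ _ => norm_nonneg _).trans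
      (h2 s a fun k => (ha k).le))
    have : ∑ k ∈ s, a k * β k p = ((∑ k ∈ s, ‖β k p‖ : ℝ) : 𝕜) := by
      push_cast
      exact Finset.sum_congr rfl fun k _ => (ha' k).symm
    rw [this, RCLike.norm_ofReal]
    refine le_trans ?_ (le_abs_self _)
    simpa using Finset.card_nsmul_le_sum s _ δ fun k hk => not_lt.1 (hs' hk)
  have h4 : ∀ n : ℕ, ∃ s : Finset ℕ, s.card = n ∧ n * (c / 2) ≤ ∑' p, ‖∑ k ∈ s, 1 * β k p‖ := by
    intro n
    induction n with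
    | zero => exact ⟨∅, rfl, by simp⟩
    | succ n ih =>
      obtain ⟨s, rfl, hs1⟩ := ih
      obtain ⟨g, hg⟩ : ∃ g : K → 𝕜, g = fun p => ∑ k ∈ s, 1 * β k p := ⟨_, rfl⟩
      have hgs : Summable fun p => ‖g p‖ := hg ▸ hss s fun _ => 1
      have hs2 : s.card * (c / 2) ≤ ∑' p, ‖g p‖ := hg ▸ hs1
      obtain ⟨T, hT⟩ := (hgs.hasSum.eventually (lt_mem_nhds
        (sub_lt_self (∑' p, ‖g p‖) (by positivity : 0 < c / 8)))).exists
      have h5 := tendsto_finsetSum T fun p _ => h3 p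
      rw [Finset.sum_const_zero] at h5
      obtain ⟨k, hk1, hk2⟩ := ((h5.eventually (gt_mem_nhds (by positivity : 0 < c / 8))).and
        (eventually_gt_atTop (s.sup id))).exists
      have hk : k ∉ s := fun h => absurd (Finset.le_sup (f := id) h) (not_le.2 hk2)
      refine ⟨insert k s, Finset.card_insert_of_notMem hk, ?_⟩
      have h6 := hss (insert k s) fun _ => 1
      simp only [Finset.sum_insert hk, fun p => (congrFun hg p).symm] at h6 ⊢
      simp only [one_mul] at h6 ⊢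
      rw [← h6.sum_add_tsum_compl (s := T)]
      have e1 := hgs.sum_add_tsum_compl (s := T)
      have e2 := (hs k).sum_add_tsum_compl (s := T)
      have e3 : ∑ p ∈ T, ‖g p‖ - ∑ p ∈ T, ‖β k p‖ ≤ ∑ p ∈ T, ‖β k p + g p‖ := by
        rw [← Finset.sum_sub_distrib]
        refine Finset.sum_le_sum fun p _ => ?_
        simpa using norm_sub_le (β k p + g p) (β k p)
      have e4 : ∑' p : ↑((T : Set K))ᶜ, ‖β k p‖ - ∑' p : ↑((T : Set K))ᶜ, ‖g p‖ ≤
          ∑' p : ↑((T : Set K))ᶜ, ‖β k p + g p‖ := by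
        refine (Summable.tsum_sub ((hs k).subtype _) (hgs.subtype _)).ge.trans ?_
        refine Summable.tsum_le_tsum (fun p => ?_) (((hs k).subtype _).sub (hgs.subtype _))
          (h6.subtype _)
        simpa using norm_sub_le (β k p + g p) (g p)
      have := h1 k
      push_cast
      linarith
  refine nsq (half_pos hc) (C := C) fun n => ?_
  obtain ⟨s, rfl, h⟩ := h4 n
  exact h.trans (h2 s _ fun _ => by simp)

variable {H : Type} [NormedAddCommGroup H] [InnerProductSpace 𝕜 H] {x : K → ℕ →ᵇ H} {e : H}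

noncomputable def EE : (X 𝕜 x →L[𝕜] 𝕜) →L[𝕜] (X 𝕜 x →L[𝕜] 𝕜) :=
  LinearMap.mkContinuous₂ (LinearMap.mk₂ 𝕜 (fun (φ : X 𝕜 x →L[𝕜] 𝕜) (f : X 𝕜 x) =>
      ∑' n, φ (sgX n (val f n)))
    (fun φ ψ f => (rows_summable φ _).of_norm.tsum_add (rows_summable ψ _).of_norm)
    (fun c φ f => by simp [tsum_mul_left])
    (fun φ f g => by
      rw [← (rows_summable φ _).of_norm.tsum_add (rows_summable φ _).of_norm]
      simp)
    (fun c φ f => by simp [tsum_mul_left])) 1 fun φ f => by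
      rw [one_mul]
      exact (norm_tsum_le_tsum_norm (rows_summable φ _)).trans
        ((rows_summable φ _).tsum_le_of_sum_le (rows φ _ (val_le f)))

theorem EE_apply (φ : X 𝕜 x →L[𝕜] 𝕜) (f : X 𝕜 x) : EE φ f = ∑' n, φ (sgX n (val f n)) := rfl

theorem EE_sg (φ : X 𝕜 x →L[𝕜] 𝕜) (m : ℕ) (v : H) : EE φ (sgX m v) = φ (sgX m v) := by
  rw [EE_apply, tsum_eq_single m fun n hn => by simp [val_sgX, hn]]
  simp [val_sgX]

theorem EE_EE (φ : X 𝕜 x →L[𝕜] 𝕜) : EE (EE φ) = EE φ := by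
  ext f
  simp only [EE_apply (EE φ), EE_sg]
  rfl

theorem compl : IsCompl (EE (𝕜 := 𝕜) (x := x)).ker (1 - EE (𝕜 := 𝕜) (x := x)).ker := by
  constructor
  · rw [Submodule.disjoint_def]
    intro φ h1 h2
    have h3 : EE φ = 0 := h1
    have h4 : φ - EE φ = 0 := h2
    simpa [h3] using h4
  · rw [codisjoint_iff, Submodule.eq_top_iff']
    intro φ
    refine Submodule.mem_sup.2 ⟨φ - EE φ, ?_, EE φ, ?_, by simp⟩
    · show EE (φ - EE φ) = 0
      simp [EE_EE]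
    · show EE φ - EE (EE φ) = 0
      simp [EE_EE]

theorem notZ [CompleteSpace H] [TopologicalSpace.SeparableSpace H] (he : ‖e‖ = 1)
    (hx : ∀ p, Adm e p (x p)) (hu : ¬ {p | x p ≠ 0}.Countable) :
    ¬ Nonempty ((1 - EE (𝕜 := 𝕜) (x := x)).ker ≃L[𝕜] (X 𝕜 x →L[𝕜] 𝕜)) := by
  rintro ⟨Θ⟩
  have hd : TopologicalSpace.SeparableSpace (H →L[𝕜] 𝕜) :=
    (InnerProductSpace.toDual 𝕜 H).surjective.denseRange.separableSpace
      (InnerProductSpace.toDual 𝕜 H).continuous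
  let u : ℕ → (H →L[𝕜] 𝕜) → (X 𝕜 x →L[𝕜] 𝕜) := fun n ψ => ψ ∘L evalCLM 𝕜 n ∘L val
  have h1 : TopologicalSpace.IsSeparable (⋃ n, range (u n)) :=
    TopologicalSpace.IsSeparable.iUnion fun n => TopologicalSpace.isSeparable_range
      (continuous_id.clm_comp continuous_const)
  have h2 : TopologicalSpace.IsSeparable
      ((1 - EE (𝕜 := 𝕜) (x := x)).ker : Set (X 𝕜 x →L[𝕜] 𝕜)) := by
    refine (h1.span (R := 𝕜)).closure.mono fun φ hφ => ?_
    have h3 : φ - EE φ = 0 := hφ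
    have h4 : ∀ n, ∃ g : H, ‖g‖ ≤ 1 ∧ ‖φ ∘L sgX n‖ ≤ 2 * ‖φ (sgX n g)‖ := by
      intro n
      by_cases h0 : ‖φ ∘L sgX n‖ = 0
      · exact ⟨0, by simp, by simp [h0]⟩
      have hpos : 0 < ‖φ ∘L sgX n‖ := lt_of_le_of_ne (norm_nonneg _) (Ne.symm h0)
      obtain ⟨g, hg, hg'⟩ := (φ ∘L sgX n).exists_lt_apply_of_lt_opNorm (half_lt_self hpos)
      refine ⟨g, hg.le, ?_⟩
      rw [ContinuousLinearMap.comp_apply] at hg'
      linarith
    choose g hg hg' using h4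
    have h5 : Summable fun n => u n (φ ∘L sgX n) := by
      refine Summable.of_norm_bounded
        ((summable_of_sum_le (fun _ => norm_nonneg _) (rows φ g hg)).mul_left 2) fun n => ?_
      refine le_trans (ContinuousLinearMap.opNorm_le_bound _ (norm_nonneg _) fun f => ?_) (hg' n)
      exact (φ ∘L sgX n).le_of_opNorm_le_of_le le_rfl (val_le f n)
    have h6 : ∑' n, u n (φ ∘L sgX n) = φ := by
      ext f
      rw [sub_eq_zero.1 h3, EE_apply, ← sub_eq_zero.1 h3]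
      exact (ContinuousLinearMap.apply 𝕜 𝕜 f).map_tsum h5
    refine mem_closure_of_tendsto (h6 ▸ h5.hasSum) (Eventually.of_forall fun s => ?_)
    exact Submodule.sum_mem _ fun n _ => Submodule.subset_span (mem_iUnion.2 ⟨n, _, rfl⟩)
  have h3 := h2.separableSpace
  have h4 : TopologicalSpace.SeparableSpace (X 𝕜 x →L[𝕜] 𝕜) :=
    Θ.surjective.denseRange.separableSpace Θ.continuous
  refine hu (PairwiseDisjoint.countable_of_isOpen
    (s := fun p => Metric.ball (lam 𝕜 he hx p) (1 / 2)) (fun p hp q _ hpq => ?_)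
    (fun _ _ => Metric.isOpen_ball) fun _ _ => Metric.nonempty_ball.2 (by norm_num))
  refine Metric.ball_disjoint_ball ?_
  have := (lam 𝕜 he hx p - lam 𝕜 he hx q).le_of_opNorm_le_of_le le_rfl
    (show ‖xX 𝕜 hx p‖ ≤ 1 from (hx p).1)
  rw [_root_.sub_apply, lam_self he hx hp, lam_ne he hx hpq.symm] at this
  rw [dist_eq_norm, add_halves]
  simpa using this

theorem kerE (he : ‖e‖ = 1) (hx : ∀ p, Adm e p (x p)) {φ : X 𝕜 x →L[𝕜] 𝕜} (h : EE φ = 0) :
    (Summable fun p => ‖φ (xX 𝕜 hx p)‖) ∧ ∑' p, ‖φ (xX 𝕜 hx p)‖ = ‖φ‖ := by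
  have h1 : ∀ n v, φ (sgX n v) = 0 := fun n v => by rw [← EE_sg, h]; rfl
  have h2 := key hx φ
  simp only [h1, tsum_zero, sub_zero] at h2
  have h3 := summable_of_sum_le (fun _ => norm_nonneg _) h2
  refine ⟨h3, le_antisymm (h3.tsum_le_of_sum_le h2) ?_⟩
  refine φ.opNorm_le_bound (tsum_nonneg fun _ => norm_nonneg _) fun f => ?_
  refine le_of_forall_pos_le_add fun ε hε => ?_
  obtain ⟨T, -, s, g, h4⟩ := approx he hx f (ε := ε / (‖φ‖ + 1)) (by positivity)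
  have h5 := φ.le_of_opNorm_le_of_le le_rfl h4
  simp only [map_sub, map_sum, map_smul, h1, Finset.sum_const_zero, sub_zero] at h5
  have h6 : ‖φ‖ * (ε / (‖φ‖ + 1)) ≤ ε := by
    rw [← mul_div_assoc, div_le_iff₀ (by positivity)]; nlinarith
  have h7 : ‖∑ p ∈ T, lam 𝕜 he hx p f • φ (xX 𝕜 hx p)‖ ≤ (∑' p, ‖φ (xX 𝕜 hx p)‖) * ‖f‖ := by
    refine le_trans ?_ (mul_le_mul_of_nonneg_right
      (h3.sum_le_tsum T fun _ _ => norm_nonneg _) (norm_nonneg f))
    rw [Finset.sum_mul]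
    refine norm_sum_le_of_le _ fun p _ => ?_
    rw [norm_smul, mul_comm]
    gcongr
    exact lam_norm he hx p f
  linarith [norm_sub_norm_le (φ f) (∑ p ∈ T, lam 𝕜 he hx p f • φ (xX 𝕜 hx p))]

theorem notY (he : ‖e‖ = 1) (hx : ∀ p, Adm e p (x p)) {o : ℕ → H} (ho : Orthonormal 𝕜 o) :
    ¬ Nonempty ((EE (𝕜 := 𝕜) (x := x)).ker ≃L[𝕜] (X 𝕜 x →L[𝕜] 𝕜)) := by
  rintro ⟨Θ⟩
  obtain ⟨A, hA, hA'⟩ := ContinuousLinearMap.bound (𝕜 := 𝕜) (𝕜₂ := 𝕜)
    (E := (EE (𝕜 := 𝕜) (x := x)).ker) (F := X 𝕜 x →L[𝕜] 𝕜) Θ.toContinuousLinearMap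
  obtain ⟨B, hB, hB'⟩ := ContinuousLinearMap.bound (𝕜 := 𝕜) (𝕜₂ := 𝕜)
    (F := (EE (𝕜 := 𝕜) (x := x)).ker) (E := X 𝕜 x →L[𝕜] 𝕜) Θ.symm.toContinuousLinearMap
  let φ : ℕ → X 𝕜 x →L[𝕜] 𝕜 := fun k => innerSL 𝕜 (o k) ∘L evalCLM 𝕜 0 ∘L val
  refine schur (fun k p => (Θ.symm (φ k)).1 (xX 𝕜 hx p)) (fun k => (kerE he hx (Θ.symm _).2).1)
    (c := 1 / A) (C := B) (by positivity) (fun k => ?_) fun s a ha => ?_
  · rw [(kerE he hx (Θ.symm _).2).2, div_le_iff₀' hA]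
    have h1 := hA' (Θ.symm (φ k))
    have h2 := (φ k).le_of_opNorm_le_of_le le_rfl
      (norm_sum_sg {0} (fun _ => o k) fun _ => (ho.1 k).le)
    have h3 : φ k (∑ n ∈ {0}, sgX n (o k)) = 1 := by
      simp [φ, val_sgX, ho.1 k]
    rw [h3, norm_one, mul_one] at h2
    simpa using h2.trans (by simpa using h1)
  · have h1 := (kerE he hx (Θ.symm (∑ k ∈ s, a k • φ k)).2).2
    have h2 : ‖∑ k ∈ s, a k • φ k‖ ≤ √s.card := by
      refine ContinuousLinearMap.opNorm_le_bound _ (by positivity) fun f => ?_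
      have h3 := ho.sum_inner_products_le (s := s) (val f 0)
      have h4 := sq_sum_le_card_mul_sum_sq (s := s) (f := fun k => ‖inner 𝕜 (o k) (val f 0)‖)
      have h5 : ‖val f 0‖ ^ 2 ≤ ‖f‖ ^ 2 := by gcongr; exact val_le f 0
      have h6 : ∑ k ∈ s, ‖inner 𝕜 (o k) (val f 0)‖ ≤ √s.card * ‖f‖ := by
        refine le_of_sq_le_sq (h4.trans ?_) (by positivity)
        rw [mul_pow, Real.sq_sqrt (by positivity)]
        gcongr
        exact h3.trans h5
      refine le_trans ?_ h6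
      rw [_root_.sum_apply]
      refine norm_sum_le_of_le _ fun k _ => ?_
      rw [_root_.smul_apply, norm_smul]
      exact mul_le_of_le_one_left (norm_nonneg _) (ha k)
    have h3 := (hB' (∑ k ∈ s, a k • φ k)).trans (mul_le_mul_of_nonneg_left h2 hB.le)
    refine le_trans (le_of_eq ?_) (h1.le.trans h3)
    simp

def Splits (𝕜 : Type) [RCLike 𝕜] (E : Type) [NormedAddCommGroup E] [NormedSpace 𝕜 E] : Prop :=
  ∀ Y Z : Submodule 𝕜 E, IsClosed (Y : Set E) → IsClosed (Z : Set E) → IsCompl Y Z →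
    Nonempty (Y ≃L[𝕜] E) ∨ Nonempty (Z ≃L[𝕜] E)

end Pool.Agent.H.MP_5801e7_an
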